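import Pool.Agent.W900.RB.Samp
import Pool.Agent.W900.SP.Sim
import Pool.Agent.W900.BC.Neg4
import Pool.Agent.H620R2.GaugeR.R2
import Pool.Agent.H620R2.GaugeX.Defs

/-!
# Relative to a random oracle with polynomially many changes, `P = BPP`
-/

set_option autoImplicit false

namespace Pool.Agent.W900.RB

open MeasureTheory Finset
open Pool.Agent.NPC Pool.Agent.H622R2
open Pool.Agent.H628R3.RO (randomOracle)
open Pool.Agent.H620R2.Gauge
open Pool.Agent.W900.BC (dig length_dig dig_inj poly_dig)

theorem count_list (t : ℕ) (f : ℕ → Bool) :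
    (((List.range t).map f).filter (fun b => b)).length =
      (univ.filter fun i : Fin t => f i = true).card := by
  have h1 : (((List.range t).map f).filter (fun b => b)).length =
      ∑ i ∈ range t, if f i = true then 1 else 0 := by
    induction t with
    | zero => simp
    | succ t ih =>
      rw [List.range_succ, List.map_append, List.filter_append, List.length_append, ih,
        sum_range_succ]
      congr 1
      by_cases h : f t = true
      · simp [h]
      · simp [h]
  rw [h1, card_filter, Fin.sum_univ_eq_sum_range (fun i => if f i = true then 1 else 0)]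

/-- the questions for a sample -/
noncomputable def Qs (q p : Polynomial ℕ) (y : ℕ × List Bool) : List (List Bool) :=
  (List.range (p.eval y.2.length)).map (fun j =>
    smp (q.eval y.2.length) y.2.length (y.1 * p.eval y.2.length + j))

theorem poly_Qs (q p : Polynomial ℕ) : Poly (Qs q p) := by
  have hx : Poly (fun y : (ℕ × List Bool) × ℕ => y.1.2) := Poly.snd (Poly.fst Poly.id)
  have hl : UPoly (fun y : (ℕ × List Bool) × ℕ => y.1.2.length) := UPoly.length hx
  have hk : Poly (fun y : (ℕ × List Bool) × ℕ => y.1.1 * p.eval y.1.2.length + y.2) :=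
    Poly.add (Poly.mul (Poly.fst (Poly.fst Poly.id)) (hl.eval p).toPoly) (Poly.snd Poly.id)
  have hrep : Poly (fun y : (ℕ × List Bool) × ℕ => List.replicate (q.eval y.1.2.length + 1) true) := by
    have h1 := ((hl.eval q).add (UPoly.const 1)).range
    have h2 : Poly (fun y : (ℕ × List Bool) × ℕ =>
        (List.range (q.eval y.1.2.length + 1)).map (fun _ => true)) :=
      NPC.Poly.map (F := fun (_ : (ℕ × List Bool) × ℕ) (_ : ℕ) => true) h1 (NPC.Poly.const true)
    refine h2.congr fun y => ?_
    rw [List.map_const', List.length_range]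
  have h3 : Poly (fun y : (ℕ × List Bool) × ℕ =>
      smp (q.eval y.1.2.length) y.1.2.length (y.1.1 * p.eval y.1.2.length + y.2)) := by
    unfold smp
    exact Poly.append hrep (poly_dig hl hk)
  exact NPC.Poly.map (F := fun (y : ℕ × List Bool) j => smp (q.eval y.2.length) y.2.length
    (y.1 * p.eval y.2.length + j)) ((UPoly.length (Poly.snd Poly.id)).eval p).range h3

theorem map_Qs (A : Oracle) (q p : Polynomial ℕ) (i : ℕ) (x : List Bool) :
    (Qs q p (i, x)).map A = sample A (q.eval x.length) x.length (p.eval x.length) i := by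
  unfold Qs sample
  apply List.ext_getElem
  · simp
  · intro k h1 h2
    simp

/-- the decision by a vote, with a table for the short inputs -/
noncomputable def HD (n₂ : ℕ) (tbl : List (List Bool)) (y : List Bool × List Bool) : List Bool :=
  if y.1.length < n₂ then (if tbl.any (fun z => decide (y.1 = z)) = true then [true] else [])
  else if y.2.length < 2 * (y.2.filter (fun b => b)).length then [true] else []

theorem poly_HD (n₂ : ℕ) (tbl : List (List Bool)) : Poly (HD n₂ tbl) := by
  have h1 : Poly (fun y : List Bool × List Bool => y.1) := Poly.fst Poly.id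
  have h2 : Poly (fun y : List Bool × List Bool => y.2) := Poly.snd Poly.id
  unfold HD
  refine Poly.ite (Poly.decide_lt (Poly.length h1) (NPC.Poly.const _)) ?_ ?_
  · refine Poly.ite (Poly.decide_bool ?_) (NPC.Poly.const _) (NPC.Poly.const _)
    exact Poly.any (p := fun (y : List Bool × List Bool) (z : List Bool) => decide (y.1 = z))
      (NPC.Poly.const tbl) (Poly.decide_eq (Poly.fst (Poly.fst Poly.id)) (Poly.snd Poly.id))
  · refine Poly.ite (Poly.decide_lt (Poly.length h2) (Poly.mul (NPC.Poly.const 2)
      (Poly.length ?_))) (NPC.Poly.const _) (NPC.Poly.const _)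
    exact Poly.filter (p := fun (_ : List Bool × List Bool) (b : Bool) => b) h2 (Poly.snd Poly.id)

open Classical in
/-- A language is decided if the votes are right for all long inputs. -/
theorem isP_of_votes {A : Oracle} {L : Set (List Bool)} {V : List Bool → List Bool}
    (hV : IsFP A V) (q p τ : Polynomial ℕ)
    (h : ∀ᶠ n : ℕ in Filter.atTop, ∀ x : List Bool, x.length = n →
      (univ.filter fun i : Fin (4 * τ.eval n) =>
        ¬ (V (pairBits (sample A (q.eval n) n (p.eval n) i) x) = [true] ↔ x ∈ L)).card <
          2 * τ.eval n) : IsP A L := by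
  obtain ⟨n₂, hn₂⟩ := Filter.eventually_atTop.1 h
  obtain ⟨tbl, htbl⟩ : ∃ tbl : List (List Bool), ∀ x, x ∈ tbl ↔ x ∈ L ∧ x.length < n₂ := by
    have hf : {x : List Bool | x ∈ L ∧ x.length < n₂}.Finite :=
      (CH.finite_short n₂).subset fun x hx => hx.2.le
    refine ⟨hf.toFinset.toList, fun x => ?_⟩
    rw [mem_toList, Set.Finite.mem_toFinset]
    exact Iff.rfl
  have hW : Poly (fun y : (ℕ × List Bool) × List Bool => pairBits y.2 y.1.2) :=
    poly_pairBits (Poly.snd Poly.id) (Poly.snd (Poly.fst Poly.id))
  have hF := IsFP.votes hV (Polynomial.C 4 * τ) (poly_Qs q p) hW (poly_HD n₂ tbl)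
  refine ⟨_, hF, fun x => ?_⟩
  have hlist : (List.range ((Polynomial.C 4 * τ).eval x.length)).map
      (fun i => decide (V (pairBits ((Qs q p (i, x)).map A) x) = [true])) =
      (List.range (4 * τ.eval x.length)).map (fun i => decide (V (pairBits
        (sample A (q.eval x.length) x.length (p.eval x.length) i) x) = [true])) := by
    have e : (Polynomial.C 4 * τ).eval x.length = 4 * τ.eval x.length := by simp
    rw [e]
    apply List.map_congr_left
    intro i _
    rw [map_Qs]
  show x ∈ L ↔ HD n₂ tbl (x, (List.range ((Polynomial.C 4 * τ).eval x.length)).map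
      (fun i => decide (V (pairBits ((Qs q p (i, x)).map A) x) = [true]))) = [true]
  rw [hlist]
  unfold HD
  dsimp only
  by_cases hx : x.length < n₂
  · rw [if_pos hx]
    have h1 : tbl.any (fun z => decide (x = z)) = true ↔ x ∈ L := by
      rw [List.any_eq_true]
      constructor
      · rintro ⟨z, hz, h2⟩
        rw [decide_eq_true_eq] at h2
        subst h2
        exact ((htbl x).1 hz).1
      · intro h2
        exact ⟨x, (htbl x).2 ⟨h2, hx⟩, by simp⟩
    by_cases h2 : x ∈ L
    · rw [if_pos (h1.2 h2)]
      simp [h2]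
    · rw [if_neg (fun h3 => h2 (h1.1 h3))]
      simp [h2]
  · rw [if_neg hx]
    have h1 := hn₂ x.length (by omega) x rfl
    rw [List.length_map, List.length_range, count_list]
    have h2 := card_filter_add_card_filter_not (s := (univ : Finset (Fin (4 * τ.eval x.length))))
      (fun i => (V (pairBits (sample A (q.eval x.length) x.length (p.eval x.length) i) x) =
        [true] ↔ x ∈ L))
    rw [card_univ, Fintype.card_fin] at h2
    by_cases hL : x ∈ L
    · have h3 : (univ.filter fun i : Fin (4 * τ.eval x.length) => decide (V (pairBits (sample A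
          (q.eval x.length) x.length (p.eval x.length) i) x) = [true]) = true) =
          univ.filter fun i : Fin (4 * τ.eval x.length) => (V (pairBits (sample A
          (q.eval x.length) x.length (p.eval x.length) i) x) = [true] ↔ x ∈ L) := by
        ext i
        simp [hL]
      rw [h3, if_pos (by omega)]
      simp [hL]
    · have h3 : (univ.filter fun i : Fin (4 * τ.eval x.length) => decide (V (pairBits (sample A
          (q.eval x.length) x.length (p.eval x.length) i) x) = [true]) = true) =
          univ.filter fun i : Fin (4 * τ.eval x.length) => ¬ (V (pairBits (sample A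
          (q.eval x.length) x.length (p.eval x.length) i) x) = [true] ↔ x ∈ L) := by
        ext i
        simp [hL]
      rw [h3, if_neg (by omega)]
      simp [hL]

/-- the bound for the questions of a randomized algorithm -/
noncomputable def qPol (M : Alg) (p : Polynomial ℕ) : Polynomial ℕ :=
  (SP.out_local M).choose.comp (Polynomial.C 2 * p + Polynomial.X + Polynomial.C 1) + Polynomial.X

theorem qPol_ge (M : Alg) (p : Polynomial ℕ) (n : ℕ) : n ≤ (qPol M p).eval n := by
  unfold qPol
  rw [Polynomial.eval_add, Polynomial.eval_X]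
  exact Nat.le_add_left _ _

theorem qPol_local (M : Alg) (p : Polynomial ℕ) (n : ℕ) (A A' : Oracle) (r x : List Bool)
    (hx : x.length = n) (hr : r.length = p.eval n)
    (h : ∀ y : List Bool, y.length ≤ (qPol M p).eval n → A y = A' y) :
    M.out A (pairBits r x) = M.out A' (pairBits r x) := by
  apply (SP.out_local M).choose_spec
  intro y hy
  apply h
  refine hy.trans ?_
  unfold qPol
  rw [A2.length_pairBits, hx, hr, Polynomial.eval_add, Polynomial.eval_comp]
  refine le_trans (le_of_eq ?_) (Nat.le_add_right _ _)
  congr 1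
  simp only [Polynomial.eval_add, Polynomial.eval_mul, Polynomial.eval_C, Polynomial.eval_X]

open Classical in
/-- For almost every oracle `O`, polynomially many changes of `O` do not separate `P` and
`BPP`. -/
theorem ae_bpp : ∀ᵐ O ∂randomOracle, ∀ A : Oracle, (∃ c, PClose c O A) →
    ∀ L, IsBPP A L → IsP A L := by
  have hc := CC.poly_countable
  have h : ∀ θ : Alg × Polynomial ℕ × ℕ, ∀ᵐ O ∂randomOracle, ∀ A : Oracle, PClose θ.2.2 O A →
      ∀ᶠ n : ℕ in Filter.atTop,
      4 * (tau (qPol θ.1 θ.2.1) θ.2.2).eval n * θ.2.1.eval n ≤ 2 ^ n ∧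
      ∀ x : List Bool, x.length = n → ∀ b : Prop,
        256 * Nat.card {r : Fin (θ.2.1.eval n) → Bool //
          ¬ (θ.1.out A (pairBits (List.ofFn r) x) = some [true] ↔ b)} ≤ 2 ^ θ.2.1.eval n →
        (univ.filter fun i : Fin (4 * (tau (qPol θ.1 θ.2.1) θ.2.2).eval n) =>
          ¬ (θ.1.out A (pairBits (sample A ((qPol θ.1 θ.2.1).eval n) n (θ.2.1.eval n) i) x) =
            some [true] ↔ b)).card < 2 * (tau (qPol θ.1 θ.2.1) θ.2.2).eval n := by
    rintro ⟨M, p, c⟩
    have h0 := ae_samples (fun A r x => M.out A (pairBits r x) = some [true]) (qPol M p) p c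
      (qPol_ge M p) (by
        intro n A A' r x hx hr h
        rw [qPol_local M p n A A' r x hx hr h])
    filter_upwards [h0] with O hO A hA
    filter_upwards [hO A hA] with n hn
    refine ⟨hn.1, fun x hx b hb => ?_⟩
    convert hn.2 x hx b hb
  filter_upwards [ae_all_iff.2 h] with O hO A hA L hL
  obtain ⟨c, hA⟩ := hA
  obtain ⟨V, p, ⟨M, hM⟩, hL⟩ := hL
  refine isP_of_votes (V := V) ⟨M, hM⟩ (qPol M p) p (tau (qPol M p) c) ?_
  filter_upwards [hO (M, p, c) A hA, Filter.eventually_ge_atTop 6] with n h1 hn x hx
  have h2 := h1.2 x hx (x ∈ L)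
  have h3 : ∀ z, (M.out A z = some [true] ↔ V z = [true]) := by
    intro z
    rw [hM z, Option.some.injEq]
  simp only [h3] at h2
  apply h2
  rw [Nat.card_eq_fintype_card, Fintype.card_subtype]
  have h4 := hL x
  rw [hx] at h4
  unfold accPr at h4
  rw [Nat.card_eq_fintype_card, Fintype.card_subtype] at h4
  have h5 := card_filter_add_card_filter_not (s := (univ : Finset (Fin (p.eval n) → Bool)))
    (fun w => V (pairBits (List.ofFn w) x) = [true])
  rw [card_univ, Fintype.card_fun, Fintype.card_bool, Fintype.card_fin] at h5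
  have h6 : (256 : ℝ) ≤ 2 ^ (n + 2) := by
    have : (2 : ℝ) ^ 8 ≤ 2 ^ (n + 2) := pow_le_pow_right₀ (by norm_num) (by omega)
    linarith [show (2 : ℝ) ^ 8 = 256 by norm_num]
  have h7 : (0 : ℝ) < 2 ^ p.eval n := by positivity
  by_cases hxL : x ∈ L
  · have h8 := h4.1 hxL
    have h9 : (univ.filter fun r : Fin (p.eval n) → Bool =>
        ¬ (V (pairBits (List.ofFn r) x) = [true] ↔ x ∈ L)) =
        univ.filter fun r : Fin (p.eval n) → Bool => ¬ V (pairBits (List.ofFn r) x) = [true] := by
      ext r
      simp [hxL]
    rw [h9]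
    rw [le_div_iff₀ h7] at h8
    have h10 : ((univ.filter fun r : Fin (p.eval n) → Bool =>
        V (pairBits (List.ofFn r) x) = [true]).card : ℝ) +
        ((univ.filter fun r : Fin (p.eval n) → Bool =>
        ¬ V (pairBits (List.ofFn r) x) = [true]).card : ℝ) = 2 ^ p.eval n := by
      exact_mod_cast h5
    have h11 : (256 : ℝ) * ((univ.filter fun r : Fin (p.eval n) → Bool =>
        ¬ V (pairBits (List.ofFn r) x) = [true]).card : ℝ) ≤ 2 ^ p.eval n := by
      have h12 : ((univ.filter fun r : Fin (p.eval n) → Bool =>
          ¬ V (pairBits (List.ofFn r) x) = [true]).card : ℝ) ≤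
          1 / 2 ^ (n + 2) * 2 ^ p.eval n := by linarith
      calc (256 : ℝ) * _ ≤ 2 ^ (n + 2) * (1 / 2 ^ (n + 2) * 2 ^ p.eval n) := by
            refine mul_le_mul h6 h12 (by positivity) (by positivity)
        _ = 2 ^ p.eval n := by
            field_simp
    exact_mod_cast h11
  · have h8 := h4.2 hxL
    have h9 : (univ.filter fun r : Fin (p.eval n) → Bool =>
        ¬ (V (pairBits (List.ofFn r) x) = [true] ↔ x ∈ L)) =
        univ.filter fun r : Fin (p.eval n) → Bool => V (pairBits (List.ofFn r) x) = [true] := by
      ext r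
      simp [hxL]
    rw [h9]
    rw [div_le_iff₀ h7] at h8
    have h11 : (256 : ℝ) * ((univ.filter fun r : Fin (p.eval n) → Bool =>
        V (pairBits (List.ofFn r) x) = [true]).card : ℝ) ≤ 2 ^ p.eval n := by
      calc (256 : ℝ) * _ ≤ 2 ^ (n + 2) * (1 / 2 ^ (n + 2) * 2 ^ p.eval n) := by
            refine mul_le_mul h6 h8 (by positivity) (by positivity)
        _ = 2 ^ p.eval n := by
            field_simp
    exact_mod_cast h11

end Pool.Agent.W900.RB
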