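import Pool.Agent.W900.RB.ZLang

/-!
# Superpolynomially many changes allow to separate `P` and `ZPP`: the end of the proof
-/

set_option autoImplicit false

namespace Pool.Agent.W900.RB

open Filter MeasureTheory
open Pool.Agent.NPC Pool.Agent.H622R2
open Pool.Agent.H620R2.Gauge
open Pool.Agent.H628R3.RO (randomOracle)
open Pool.Agent.W900.CH (Close)

theorem isZPP_of_stage {A : Oracle} {n : ℕ → ℕ} (hn : StrictMono n) {N₀ : ℕ}
    (hN₀ : ∀ k, N₀ ≤ n k) {M : ℕ → Alg} (hW : ∀ k, WZ (M k) (n k) A)
    (hM : ∀ m, N₀ ≤ m → (∀ k, m ≠ n k) → ¬ Marked A m) :
    ∃ L, IsZPP A L ∧ ∀ k, (List.replicate (n k) true ∈ L ↔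
      (M k).out A (List.replicate (n k) true) ≠ some [true]) := by
  classical
  choose r b hr hmark hrr hval hcard hdiag using hW
  refine ⟨{x | ∃ k, x = List.replicate (n k) true ∧ b k = true}, ?_, ?_⟩
  · refine ⟨Vz A N₀, Polynomial.X, Vz_fp A N₀, fun x => ?_⟩
    rw [Polynomial.eval_X]
    obtain ⟨h1, h2, h3, h4⟩ : (∀ w, x.length < N₀ → Vz A N₀ (pairBits w x) = [false]) ∧
        (∀ w, x ≠ List.replicate x.length true → Vz A N₀ (pairBits w x) = [false]) ∧
        (∀ w, ¬ Marked A x.length → Vz A N₀ (pairBits w x) = [false]) ∧
        (∀ w, N₀ ≤ x.length → x = List.replicate x.length true → Marked A x.length →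
          rr A x.length < x.length → Vz A N₀ (pairBits w x) =
            if A (ps x.length false (w.take (rr A x.length))) = true then
              (if A (ps x.length true (w.take (rr A x.length))) = true then [true] else [false])
            else []) :=
      ⟨fun w => (Vz_out A N₀ w x).1, fun w => (Vz_out A N₀ w x).2.1,
        fun w => (Vz_out A N₀ w x).2.2.1, fun w => (Vz_out A N₀ w x).2.2.2⟩
    by_cases hst : ∃ k, x = List.replicate (n k) true
    · -- a stage
      obtain ⟨k, hk⟩ := hst
      have hl : x.length = n k := by rw [hk]; simp
      have hxr : x = List.replicate x.length true := by rw [hl]; exact hk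
      have hmem : x ∈ {x | ∃ k, x = List.replicate (n k) true ∧ b k = true} ↔ b k = true := by
        constructor
        · rintro ⟨k', h5, h6⟩
          have h7 : n k' = n k := by
            rw [← hl, h5]
            simp
          rw [← hn.injective h7]
          exact h6
        · intro h
          exact ⟨k, hk, h⟩
      have hV : ∀ w, Vz A N₀ (pairBits w x) = if A (ps (n k) false (w.take (r k))) = true then
          (if A (ps (n k) true (w.take (r k))) = true then [true] else [false]) else [] := by
        intro w
        have h5 := h4 w (by rw [hl]; exact hN₀ k) hxr (by rw [hl]; exact hmark k)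
          (by rw [hl, hrr]; exact hr k)
        rw [hl, hrr] at h5
        exact h5
      rw [hmem]
      constructor
      · intro w hw
        rw [hV w]
        have hwl : (w.take (r k)).length = r k := by
          rw [List.length_take, hw, hl]
          exact min_eq_left (hr k).le
        by_cases h5 : A (ps (n k) false (w.take (r k))) = true
        · have h6 := hval k _ hwl h5
          rw [if_pos h5, h6]
          cases hb : b k
          · simp
          · simp
        · rw [if_neg h5]
          simp
      · have h5 : {w : Fin x.length → Bool | Vz A N₀ (pairBits (List.ofFn w) x) = [true] ∨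
            Vz A N₀ (pairBits (List.ofFn w) x) = [false]} =
            {w : Fin x.length → Bool | ¬ A (ps (n k) false ((List.ofFn w).take (r k))) = false} := by
          ext w
          simp only [Set.mem_ofPred_eq]
          rw [hV]
          by_cases h6 : A (ps (n k) false ((List.ofFn w).take (r k))) = true
          · rw [if_pos h6]
            simp only [h6]
            by_cases h7 : A (ps (n k) true ((List.ofFn w).take (r k))) = true
            · simp [h7]
            · simp [h7]
          · rw [if_neg h6]
            simp at h6
            simp [h6]
        have h6 : Nat.card {w : Fin x.length → Bool // Vz A N₀ (pairBits (List.ofFn w) x) = [true] ∨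
            Vz A N₀ (pairBits (List.ofFn w) x) = [false]} =
            Nat.card {w : Fin x.length → Bool //
              ¬ A (ps (n k) false ((List.ofFn w).take (r k))) = false} := by
          exact Nat.card_congr (Equiv.setCongr h5)
        rw [h6]
        have h7 := card_prefix (fun u => A (ps (n k) false u) = false) (r := r k) (m := x.length)
          (by rw [hl]; exact (hr k).le)
        have h8 := hcard k
        rw [Nat.card_eq_fintype_card, Fintype.card_subtype] at h7 ⊢
        have h9 := Finset.card_filter_add_card_filter_not
          (s := (Finset.univ : Finset (Fin x.length → Bool)))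
          (fun w => A (ps (n k) false ((List.ofFn w).take (r k))) = false)
        rw [Finset.card_univ, Fintype.card_fun, Fintype.card_bool, Fintype.card_fin] at h9
        have h10 : 2 ^ (r k) * 2 ^ (x.length - r k) = 2 ^ x.length := by
          rw [← pow_add]
          congr 1
          have := hr k
          omega
        have h11 : 2 * (Finset.univ.filter fun w : Fin x.length → Bool =>
            A (ps (n k) false ((List.ofFn w).take (r k))) = false).card ≤ 2 ^ x.length := by
          calc 2 * (Finset.univ.filter fun w : Fin x.length → Bool =>
                A (ps (n k) false ((List.ofFn w).take (r k))) = false).card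
              = (2 * Nat.card {u : Fin (r k) → Bool // A (ps (n k) false (List.ofFn u)) = false}) *
                2 ^ (x.length - r k) := by
                rw [mul_assoc, ← h7]
            _ ≤ 2 ^ (r k) * 2 ^ (x.length - r k) := Nat.mul_le_mul_right _ h8
            _ = 2 ^ x.length := h10
        rw [div_le_div_iff₀ (by norm_num) (by positivity), one_mul]
        have h12 : 2 ^ x.length ≤ (Finset.univ.filter fun w : Fin x.length → Bool =>
            ¬ A (ps (n k) false ((List.ofFn w).take (r k))) = false).card * 2 := by omega
        exact_mod_cast h12
    · -- not a stage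
      have hV : ∀ w, Vz A N₀ (pairBits w x) = [false] := by
        intro w
        by_cases h5 : x.length < N₀
        · exact h1 w h5
        · by_cases h6 : x = List.replicate x.length true
          · apply h3 w
            apply hM _ (by omega)
            intro k hk
            apply hst
            exact ⟨k, by rw [← hk]; exact h6⟩
          · exact h2 w h6
      constructor
      · intro w _
        rw [hV w]
        refine ⟨fun h => by simp at h, fun _ => ?_⟩
        rintro ⟨k, hk, _⟩
        exact hst ⟨k, hk⟩
      · have h5 : Nat.card {w : Fin x.length → Bool //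
            Vz A N₀ (pairBits (List.ofFn w) x) = [true] ∨
              Vz A N₀ (pairBits (List.ofFn w) x) = [false]} = 2 ^ x.length := by
          have h6 : ∀ w : Fin x.length → Bool, Vz A N₀ (pairBits (List.ofFn w) x) = [true] ∨
              Vz A N₀ (pairBits (List.ofFn w) x) = [false] := fun w => Or.inr (hV _)
          rw [Nat.card_congr (Equiv.subtypeUnivEquiv h6), Nat.card_eq_fintype_card,
            Fintype.card_fun, Fintype.card_bool, Fintype.card_fin]
        rw [h5]
        push_cast
        rw [div_self (by positivity)]
        norm_num
  · intro k
    rw [← hdiag k]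
    constructor
    · rintro ⟨k', h5, h6⟩
      have h7 : n k' = n k := by
        have := congrArg List.length h5
        simpa using this.symm
      rw [← hn.injective h7]
      exact h6
    · intro h
      exact ⟨k, rfl, h⟩

/-- Almost every oracle can be changed at superpolynomially many strings such that `P` and `ZPP`
are different. -/
theorem exists_zpp {g : ℕ → ℝ} (hg : Super g) : ∀ᵐ O ∂randomOracle, ∃ A : Oracle, Close g O A ∧
    ∃ L, IsZPP A L ∧ ¬ IsP A L := by
  obtain ⟨al, hal⟩ := exists_alg
  filter_upwards [ae_marked] with O hO
  obtain ⟨N₀, hN₀⟩ := eventually_atTop.1 hO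
  obtain ⟨A, n, h1, h2, h3, h4, h5⟩ := stages hg O (fun k n A => WZ (al k) n A)
    (fun k => Polynomial.C 2 * Polynomial.X + Polynomial.C 8 * (al k).p + Polynomial.C 4)
    (fun k => (SP.out_local (al k)).choose + Polynomial.C 3 * Polynomial.X + Polynomial.C 3) N₀
    (fun k => taskZ (al k))
  refine ⟨A, h3, ?_⟩
  obtain ⟨L, hL, hd⟩ := isZPP_of_stage h1 h2 h5 (by
    intro m hm hk hmark
    apply hN₀ m hm
    intro j hj
    rw [← h4]
    · exact hmark j hj
    · intro k hr
      exact hk k (region_inj (reg_mem m _) hr))
  refine ⟨L, hL, ?_⟩
  rintro ⟨V, ⟨M, hM⟩, hV⟩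
  obtain ⟨k, rfl⟩ := hal M
  have h6 := hd k
  rw [hV, hM, ne_eq, Option.some.injEq] at h6
  by_cases h7 : V (List.replicate (n k) true) = [true]
  · exact (h6.1 h7) h7
  · exact h7 (h6.2 h7)

end Pool.Agent.W900.RB
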