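import Pool.Agent.W900.RB.Bpp

/-!
# Relative to a random oracle with polynomially many changes, `P = RP = ZPP`
-/

set_option autoImplicit false

namespace Pool.Agent.W900.RB

open MeasureTheory Finset
open Pool.Agent.NPC Pool.Agent.H622R2
open Pool.Agent.H628R3.RO (randomOracle)
open Pool.Agent.H620R2.Gauge

/-- a part of a string -/
def chunk (p j : ℕ) (r : List Bool) : List Bool := (r.drop (j * p)).take p

theorem length_chunk {p j m : ℕ} {r : List Bool} (hr : r.length = m * p) (hj : j < m) :
    (chunk p j r).length = p := by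
  unfold chunk
  rw [List.length_take, List.length_drop, hr]
  have h1 : (j + 1) * p ≤ m * p := Nat.mul_le_mul_right _ hj
  rw [Nat.add_mul, one_mul] at h1
  omega

theorem chunk_ofFn {p j m : ℕ} (hj : j < m) (r : Fin (m * p) → Bool) :
    chunk p j (List.ofFn r) = List.ofFn (fun l : Fin p => r (finProdFinEquiv (⟨j, hj⟩, l))) := by
  apply List.ext_getElem
  · rw [length_chunk (m := m) (by simp) hj]
    simp
  · intro k h1 h2
    simp only [chunk, List.getElem_take, List.getElem_drop, List.getElem_ofFn]
    congr 1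
    apply Fin.ext
    simp [finProdFinEquiv]
    ring

theorem chunk_sample (A : Oracle) (q n p i : ℕ) {j : ℕ} (hj : j < 8) :
    chunk p j (sample A q n (8 * p) i) = sample A q n p (8 * i + j) := by
  unfold sample
  rw [chunk_ofFn hj]
  congr 1
  funext l
  congr 2
  simp [finProdFinEquiv]
  ring

open Classical in
theorem card_all_bad (p : ℕ) (Bad : List Bool → Prop)
    (h : 2 * Nat.card {w : Fin p → Bool // Bad (List.ofFn w)} ≤ 2 ^ p) :
    256 * Nat.card {r : Fin (8 * p) → Bool // ∀ j < 8, Bad (chunk p j (List.ofFn r))} ≤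
      2 ^ (8 * p) := by
  let e : (Fin (8 * p) → Bool) ≃ (Fin 8 → Fin p → Bool) :=
    (Equiv.arrowCongr finProdFinEquiv.symm (Equiv.refl Bool)).trans (Equiv.curry _ _ _)
  have he : ∀ (r : Fin (8 * p) → Bool) (j : Fin 8), chunk p j (List.ofFn r) = List.ofFn (e r j) := by
    intro r j
    rw [chunk_ofFn j.2]
    rfl
  have h1 : Nat.card {r : Fin (8 * p) → Bool // ∀ j < 8, Bad (chunk p j (List.ofFn r))} =
      (Fintype.piFinset (fun _ : Fin 8 => univ.filter fun w : Fin p → Bool =>
        Bad (List.ofFn w))).card := by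
    rw [Nat.card_eq_fintype_card, Fintype.card_subtype]
    refine card_bij' (fun r _ => e r) (fun f _ => e.symm f) ?_ ?_ ?_ ?_
    · intro r hr
      rw [mem_filter] at hr
      rw [Fintype.mem_piFinset]
      intro j
      rw [mem_filter]
      refine ⟨mem_univ _, ?_⟩
      rw [← he]
      exact hr.2 j j.2
    · intro f hf
      rw [Fintype.mem_piFinset] at hf
      rw [mem_filter]
      refine ⟨mem_univ _, fun j hj => ?_⟩
      have h2 := he (e.symm f) ⟨j, hj⟩
      rw [Equiv.apply_symm_apply] at h2
      have h3 := hf ⟨j, hj⟩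
      rw [mem_filter, ← h2] at h3
      exact h3.2
    · intro r _
      exact e.symm_apply_apply r
    · intro f _
      exact e.apply_symm_apply f
  rw [h1, Fintype.card_piFinset_const]
  rw [Nat.card_eq_fintype_card, Fintype.card_subtype] at h
  calc 256 * (univ.filter fun w : Fin p → Bool => Bad (List.ofFn w)).card ^ 8
      = (2 * (univ.filter fun w : Fin p → Bool => Bad (List.ofFn w)).card) ^ 8 := by
        rw [mul_pow]
        norm_num
    _ ≤ (2 ^ p) ^ 8 := Nat.pow_le_pow_left h 8
    _ = 2 ^ (8 * p) := by rw [← pow_mul, mul_comm]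

open Classical in
/-- For almost every oracle `O`: however polynomially many strings are changed, one of the samples
is good if half of all strings are. -/
theorem ae_hit (S : Set (List Bool)) : ∀ᵐ O ∂randomOracle, ∀ (M : Alg) (p : Polynomial ℕ) (c : ℕ)
    (A : Oracle), PClose c O A → ∀ᶠ n : ℕ in Filter.atTop, ∀ x : List Bool, x.length = n →
      2 ^ p.eval n ≤ 2 * Nat.card {w : Fin (p.eval n) → Bool //
        ∃ z ∈ S, M.out A (pairBits (List.ofFn w) x) = some z} →
      ∃ i < 32 * (tau (qPol M p) c).eval n, ∃ z ∈ S,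
        M.out A (pairBits (sample A ((qPol M p).eval n) n (p.eval n) i) x) = some z := by
  have hc := CC.poly_countable
  have h : ∀ θ : Alg × Polynomial ℕ × ℕ, ∀ᵐ O ∂randomOracle, ∀ A : Oracle, PClose θ.2.2 O A →
      ∀ᶠ n : ℕ in Filter.atTop, ∀ x : List Bool, x.length = n →
      2 ^ θ.2.1.eval n ≤ 2 * Nat.card {w : Fin (θ.2.1.eval n) → Bool //
        ∃ z ∈ S, θ.1.out A (pairBits (List.ofFn w) x) = some z} →
      ∃ i < 32 * (tau (qPol θ.1 θ.2.1) θ.2.2).eval n, ∃ z ∈ S,
        θ.1.out A (pairBits (sample A ((qPol θ.1 θ.2.1).eval n) n (θ.2.1.eval n) i) x) =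
          some z := by
    rintro ⟨M, p, c⟩
    dsimp only
    have e8 : ∀ n, (Polynomial.C 8 * p).eval n = 8 * p.eval n := fun n => by simp
    obtain ⟨Acc, hAcc⟩ : ∃ Acc : Oracle → List Bool → List Bool → Prop, ∀ A r x, (Acc A r x ↔
        ∃ j < 8, ∃ z ∈ S, M.out A (pairBits (chunk (p.eval x.length) j r) x) = some z) :=
      ⟨_, fun A r x => Iff.rfl⟩
    have h0 := ae_samples Acc (qPol M p)
      (Polynomial.C 8 * p) c (qPol_ge M p) (by
        intro n A A' r x hx hr h
        rw [e8] at hr
        rw [hAcc, hAcc]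
        refine exists_congr fun j => and_congr_right fun hj => exists_congr fun z =>
          and_congr_right fun _ => ?_
        rw [hx, qPol_local M p n A A' _ x hx (length_chunk hr hj) h])
    filter_upwards [h0] with O hO A hA
    filter_upwards [hO A hA] with n hn x hx hhalf
    obtain ⟨b, hb⟩ : ∃ b : Prop, b := ⟨True, trivial⟩
    have h1 := hn.2 x hx b
    rw [e8] at h1
    have h2 : 256 * Nat.card {r : Fin (8 * p.eval n) → Bool //
        ¬ (Acc A (List.ofFn r) x ↔ b)} ≤ 2 ^ (8 * p.eval n) := by
      have h3 := card_all_bad (p.eval n)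
        (fun w => ¬ ∃ z ∈ S, M.out A (pairBits w x) = some z) (by
          have h4 := card_filter_add_card_filter_not
            (s := (univ : Finset (Fin (p.eval n) → Bool)))
            (fun w => ∃ z ∈ S, M.out A (pairBits (List.ofFn w) x) = some z)
          rw [card_univ, Fintype.card_fun, Fintype.card_bool, Fintype.card_fin] at h4
          rw [Nat.card_eq_fintype_card, Fintype.card_subtype] at hhalf ⊢
          omega)
      refine le_trans (le_of_eq ?_) h3
      congr 1
      apply Nat.card_congr
      apply Equiv.subtypeEquivRight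
      intro r
      rw [iff_true_right hb, hAcc, hx]
      push Not
      rfl
    have h3 := h1 h2
    have h4 : ∃ i : Fin (4 * (tau (qPol M p) c).eval n),
        Acc A (sample A ((qPol M p).eval n) n (8 * p.eval n) i) x := by
      by_contra hcon
      push Not at hcon
      have hall : ∀ i : Fin (4 * (tau (qPol M p) c).eval n),
          ¬ (Acc A (sample A ((qPol M p).eval n) n (8 * p.eval n) i) x ↔ b) := by
        intro i
        rw [iff_true_right hb]
        exact hcon i
      have h6 : ∀ F : Finset (Fin (4 * (tau (qPol M p) c).eval n)), (∀ i, i ∈ F) →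
          F.card < 2 * (tau (qPol M p) c).eval n → False := by
        intro F hF h
        rw [eq_univ_iff_forall.2 hF, card_univ, Fintype.card_fin] at h
        omega
      refine h6 _ (fun i => ?_) h3
      rw [mem_filter]
      exact ⟨mem_univ _, hall i⟩
    obtain ⟨i, h5⟩ := h4
    rw [hAcc] at h5
    obtain ⟨j, hj, z, hz, h5⟩ := h5
    rw [hx, chunk_sample A _ _ _ _ hj] at h5
    exact ⟨8 * i + j, by have := i.2; omega, z, hz, h5⟩
  filter_upwards [ae_all_iff.2 h] with O hO M p c
  exact hO (M, p, c)

/-- the questions for all samples, and the runs: some run accepts -/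
noncomputable def HA (n₂ : ℕ) (tbl : List (List Bool)) (y : List Bool × List Bool) : List Bool :=
  if y.1.length < n₂ then (if tbl.any (fun z => decide (y.1 = z)) = true then [true] else [])
  else if y.2.any (fun b => b) = true then [true] else []

theorem poly_HA (n₂ : ℕ) (tbl : List (List Bool)) : Poly (HA n₂ tbl) := by
  have h1 : Poly (fun y : List Bool × List Bool => y.1) := Poly.fst Poly.id
  have h2 : Poly (fun y : List Bool × List Bool => y.2) := Poly.snd Poly.id
  unfold HA
  refine Poly.ite (Poly.decide_lt (Poly.length h1) (NPC.Poly.const _)) ?_ ?_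
  · refine Poly.ite (Poly.decide_bool ?_) (NPC.Poly.const _) (NPC.Poly.const _)
    exact Poly.any (p := fun (y : List Bool × List Bool) (z : List Bool) => decide (y.1 = z))
      (NPC.Poly.const tbl) (Poly.decide_eq (Poly.fst (Poly.fst Poly.id)) (Poly.snd Poly.id))
  · exact Poly.ite (Poly.decide_bool (Poly.any (p := fun (_ : List Bool × List Bool) (b : Bool) =>
      b) h2 (Poly.snd Poly.id))) (NPC.Poly.const _) (NPC.Poly.const _)

open Classical in
/-- A language is decided if some sample accepts exactly on the long members. -/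
theorem isP_of_any {A : Oracle} {L : Set (List Bool)} {V : List Bool → List Bool}
    (hV : IsFP A V) (q p τ : Polynomial ℕ)
    (h : ∀ᶠ n : ℕ in Filter.atTop, ∀ x : List Bool, x.length = n →
      ((∃ i < 32 * τ.eval n, V (pairBits (sample A (q.eval n) n (p.eval n) i) x) = [true]) ↔
        x ∈ L)) : IsP A L := by
  obtain ⟨n₂, hn₂⟩ := Filter.eventually_atTop.1 h
  obtain ⟨tbl, htbl⟩ : ∃ tbl : List (List Bool), ∀ x, x ∈ tbl ↔ x ∈ L ∧ x.length < n₂ := by
    have hf : {x : List Bool | x ∈ L ∧ x.length < n₂}.Finite :=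
      (CH.finite_short n₂).subset fun x hx => hx.2.le
    refine ⟨hf.toFinset.toList, fun x => ?_⟩
    rw [mem_toList, Set.Finite.mem_toFinset]
    exact Iff.rfl
  have hW : Poly (fun y : (ℕ × List Bool) × List Bool => pairBits y.2 y.1.2) :=
    poly_pairBits (Poly.snd Poly.id) (Poly.snd (Poly.fst Poly.id))
  have hF := IsFP.votes hV (Polynomial.C 32 * τ) (poly_Qs q p) hW (poly_HA n₂ tbl)
  refine ⟨_, hF, fun x => ?_⟩
  have hlist : (List.range ((Polynomial.C 32 * τ).eval x.length)).map
      (fun i => decide (V (pairBits ((Qs q p (i, x)).map A) x) = [true])) =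
      (List.range (32 * τ.eval x.length)).map (fun i => decide (V (pairBits
        (sample A (q.eval x.length) x.length (p.eval x.length) i) x) = [true])) := by
    have e : (Polynomial.C 32 * τ).eval x.length = 32 * τ.eval x.length := by simp
    rw [e]
    apply List.map_congr_left
    intro i _
    rw [map_Qs]
  show x ∈ L ↔ HA n₂ tbl (x, (List.range ((Polynomial.C 32 * τ).eval x.length)).map
      (fun i => decide (V (pairBits ((Qs q p (i, x)).map A) x) = [true]))) = [true]
  rw [hlist]
  unfold HA
  dsimp only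
  by_cases hx : x.length < n₂
  · rw [if_pos hx]
    have h1 : tbl.any (fun z => decide (x = z)) = true ↔ x ∈ L := by
      rw [List.any_eq_true]
      constructor
      · rintro ⟨z, hz, h2⟩
        rw [decide_eq_true_eq] at h2
        subst h2
        exact ((htbl x).1 hz).1
      · intro h2
        exact ⟨x, (htbl x).2 ⟨h2, hx⟩, by simp⟩
    by_cases h2 : x ∈ L
    · rw [if_pos (h1.2 h2)]
      simp [h2]
    · rw [if_neg (fun h3 => h2 (h1.1 h3))]
      simp [h2]
  · rw [if_neg hx]
    have h1 := hn₂ x.length (by omega) x rfl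
    have h2 : ((List.range (32 * τ.eval x.length)).map (fun i => decide (V (pairBits
        (sample A (q.eval x.length) x.length (p.eval x.length) i) x) = [true]))).any
        (fun b => b) = true ↔ x ∈ L := by
      rw [← h1, List.any_eq_true]
      constructor
      · rintro ⟨b, hb, h3⟩
        obtain ⟨i, hi, rfl⟩ := List.mem_map.1 hb
        rw [List.mem_range] at hi
        exact ⟨i, hi, of_decide_eq_true h3⟩
      · rintro ⟨i, hi, h3⟩
        exact ⟨true, List.mem_map.2 ⟨i, List.mem_range.2 hi, decide_eq_true h3⟩, rfl⟩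
    by_cases hL : x ∈ L
    · rw [if_pos (h2.2 hL)]
      simp [hL]
    · rw [if_neg (fun h3 => hL (h2.1 h3))]
      simp [hL]

/-- For almost every oracle `O`, polynomially many changes of `O` do not separate `P` and `RP`. -/
theorem ae_rp : ∀ᵐ O ∂randomOracle, ∀ A : Oracle, (∃ c, PClose c O A) →
    ∀ L, IsRP A L → IsP A L := by
  filter_upwards [ae_hit {[true]}] with O hO A hA L hL
  obtain ⟨c, hA⟩ := hA
  obtain ⟨V, p, ⟨M, hM⟩, hL⟩ := hL
  refine isP_of_any (V := V) ⟨M, hM⟩ (qPol M p) p (tau (qPol M p) c) ?_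
  have h3 : ∀ z, ((∃ u ∈ ({[true]} : Set (List Bool)), M.out A z = some u) ↔ V z = [true]) := by
    intro z
    simp [hM z]
  filter_upwards [hO M p c A hA] with n hn x hx
  have h1 := hn x hx
  simp only [h3] at h1
  have h4 := hL x
  rw [hx] at h4
  unfold accPr at h4
  have h7 : (0 : ℝ) < 2 ^ p.eval n := by positivity
  constructor
  · rintro ⟨i, _, h5⟩
    by_contra hxL
    have h6 := h4.2 hxL
    rw [div_eq_zero_iff] at h6
    rcases h6 with h6 | h6
    · have h8 : Nat.card {w : Fin (p.eval n) → Bool //
          V (pairBits (List.ofFn w) x) = [true]} = 0 := by exact_mod_cast h6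
      rw [Nat.card_eq_zero] at h8
      rcases h8 with h8 | h8
      · exact h8.false ⟨_, h5⟩
      · exact absurd h8 (not_infinite_iff_finite.2 inferInstance)
    · exact absurd h6 h7.ne'
  · intro hxL
    apply h1
    have h5 := h4.1 hxL
    rw [le_div_iff₀ h7] at h5
    have h6 : (2 : ℝ) ^ p.eval n ≤ 2 * (Nat.card {w : Fin (p.eval n) → Bool //
        V (pairBits (List.ofFn w) x) = [true]} : ℝ) := by linarith
    exact_mod_cast h6

/-- For almost every oracle `O`, polynomially many changes of `O` do not separate `P` and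
`ZPP`. -/
theorem ae_zpp : ∀ᵐ O ∂randomOracle, ∀ A : Oracle, (∃ c, PClose c O A) →
    ∀ L, IsZPP A L → IsP A L := by
  filter_upwards [ae_hit {[true], [false]}] with O hO A hA L hL
  obtain ⟨c, hA⟩ := hA
  obtain ⟨V, p, ⟨M, hM⟩, hL⟩ := hL
  refine isP_of_any (V := V) ⟨M, hM⟩ (qPol M p) p (tau (qPol M p) c) ?_
  have h3 : ∀ z, ((∃ u ∈ ({[true], [false]} : Set (List Bool)), M.out A z = some u) ↔
      (V z = [true] ∨ V z = [false])) := by
    intro z
    simp [hM z]
  filter_upwards [hO M p c A hA] with n hn x hx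
  have h1 := hn x hx
  simp only [h3] at h1
  have h4 := hL x
  rw [hx] at h4
  have h7 : (0 : ℝ) < 2 ^ p.eval n := by positivity
  obtain ⟨i, hi, h5⟩ := h1 (by
    have h5 := h4.2
    rw [le_div_iff₀ h7] at h5
    have h6 : (2 : ℝ) ^ p.eval n ≤ 2 * (Nat.card {w : Fin (p.eval n) → Bool //
        V (pairBits (List.ofFn w) x) = [true] ∨ V (pairBits (List.ofFn w) x) = [false]} : ℝ) := by
      linarith
    exact_mod_cast h6)
  constructor
  · rintro ⟨i', _, h6⟩
    exact ((h4.1 _ (length_sample _ _ _ _ _)).1) h6
  · intro hxL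
    rcases h5 with h5 | h5
    · exact ⟨i, hi, h5⟩
    · exact absurd hxL ((h4.1 _ (length_sample _ _ _ _ _)).2 h5)

end Pool.Agent.W900.RB
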