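import Pool.Agent.W900.RB.NX

/-!
# Few changes of an arbitrary oracle: `NP = BPP = ZPP`
-/

set_option autoImplicit false

namespace Pool.Agent.W900.RB

open Filter MeasureTheory
open Pool.Agent.NPC Pool.Agent.H622R2
open Pool.Agent.H620R2.Gauge
open Pool.Agent.H628R3.RO (randomOracle)
open Pool.Agent.W900.CH (Close exists_K close_of_code)

/-- the questions: nondeterministic or probabilistic polynomial time -/
def QB : Bool × Alg × Polynomial ℕ → List Bool → Oracle → Prop
  | (true, M, q), x, A => ∃ w : List Bool, w.length ≤ q.eval x.length ∧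
      M.out A (pairBits w x) = some [true]
  | (false, M, q), x, A => 2 ^ q.eval x.length ≤ 2 * Nat.card {w : Fin (q.eval x.length) → Bool //
      M.out A (pairBits (List.ofFn w) x) = some [true]}

theorem runs_local (M : Alg) (q : Polynomial ℕ) (x : List Bool) (A : Oracle) :
    ∃ U : Finset (List Bool),
      U.card ≤ 2 ^ (q + Polynomial.C 1 + M.p.comp (cl q)).eval x.length ∧
      ∀ A' : Oracle, (∀ u ∈ U, A' u = A u) → ∀ w : List Bool, w.length ≤ q.eval x.length →
        M.out A' (pairBits w x) = M.out A (pairBits w x) := by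
  classical
  have h1 : ∀ w : List Bool, ∃ U : Finset (List Bool),
      U.card ≤ M.p.eval (pairBits w x).length ∧ ∀ A' : Oracle, (∀ u ∈ U, A' u = A u) →
        M.out A' (pairBits w x) = M.out A (pairBits w x) := fun w =>
    run_local M A (pairBits w x) (M.p.eval (pairBits w x).length) []
  choose U hU1 hU2 using h1
  obtain ⟨S, hS1, hS2⟩ := exists_short (q.eval x.length)
  set S' := S.filter (fun w => w.length ≤ q.eval x.length) with hS'
  refine ⟨S'.biUnion U, ?_, fun A' hA' w hw => ?_⟩
  · refine Finset.card_biUnion_le.trans ?_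
    have h2 : ∀ w ∈ S', (U w).card ≤ (M.p.comp (cl q)).eval x.length := by
      intro w hw
      rw [hS', Finset.mem_filter] at hw
      refine (hU1 w).trans ?_
      rw [Polynomial.eval_comp]
      exact eval_mono _ (len_cert hw.2 rfl)
    refine (Finset.sum_le_sum h2).trans ?_
    rw [Finset.sum_const, smul_eq_mul]
    have h3 : S'.card ≤ 2 ^ (q.eval x.length + 1) := (Finset.card_filter_le _ _).trans hS1
    have h4 : (q + Polynomial.C 1 + M.p.comp (cl q)).eval x.length =
        q.eval x.length + 1 + (M.p.comp (cl q)).eval x.length := by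
      rw [Polynomial.eval_add, Polynomial.eval_add, Polynomial.eval_C]
    rw [h4, pow_add]
    exact Nat.mul_le_mul h3 Nat.lt_two_pow_self.le
  · refine hU2 w A' fun u hu => hA' u ?_
    rw [Finset.mem_biUnion]
    refine ⟨w, ?_, hu⟩
    rw [hS', Finset.mem_filter]
    exact ⟨hS2 w hw, hw⟩

theorem QB_local (i : Bool × Alg × Polynomial ℕ) (x : List Bool) (A : Oracle) :
    ∃ U : Finset (List Bool),
      U.card ≤ 2 ^ (i.2.2 + Polynomial.C 1 + i.2.1.p.comp (cl i.2.2)).eval x.length ∧
      ∀ A' : Oracle, (∀ u ∈ U, A' u = A u) → (QB i x A' ↔ QB i x A) := by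
  obtain ⟨b, M, q⟩ := i
  obtain ⟨U, hU1, hU2⟩ := runs_local M q x A
  refine ⟨U, hU1, fun A' hA' => ?_⟩
  have h := hU2 A' hA'
  cases b
  · simp only [QB]
    have h1 : Nat.card {w : Fin (q.eval x.length) → Bool //
        M.out A' (pairBits (List.ofFn w) x) = some [true]} =
        Nat.card {w : Fin (q.eval x.length) → Bool //
          M.out A (pairBits (List.ofFn w) x) = some [true]} := by
      apply Nat.card_congr
      refine Equiv.subtypeEquivRight fun w => ?_
      rw [h _ (by simp)]
    rw [h1]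
  · unfold QB
    constructor
    · rintro ⟨w, hw, h1⟩
      exact ⟨w, hw, by rw [← h w hw]; exact h1⟩
    · rintro ⟨w, hw, h1⟩
      exact ⟨w, hw, by rw [h w hw]; exact h1⟩

open Classical in
/-- Every oracle can be changed at few strings such that nondeterministic and probabilistic
polynomial time have zero error algorithms. -/
theorem exists_close_both {g : ℕ → ℝ}
    (hg : ¬ ∀ ε : ℝ, 0 < ε → ∃ᶠ n : ℕ in atTop, g n ≤ 2 ^ (n : ℝ) ^ ε) (O : Oracle) :
    ∃ A, Close g O A ∧ ∀ L, IsNP A L ∨ IsBPP A L → IsZPP A L := by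
  push Not at hg
  obtain ⟨ε, hε, hg⟩ := hg
  have hcount := CC.poly_countable
  obtain ⟨al, hal⟩ := exists_alg
  have h2 : Countable Alg := inferInstance
  have h3 : Nonempty (Bool × Alg × Polynomial ℕ) := ⟨(true, al 0, 0)⟩
  obtain ⟨u, hu⟩ := exists_surjective_nat (Bool × Alg × Polynomial ℕ)
  obtain ⟨K, hK'⟩ := exists_K hε
  set R : ℕ → Polynomial ℕ := fun e => (Polynomial.X + Polynomial.C (e + 1)) ^ K with hR
  have hRe : ∀ e n, (n + e + 1) ^ K ≤ (R e).eval n := by
    intro e n
    rw [hR]
    simp only [Polynomial.eval_pow, Polynomial.eval_add, Polynomial.eval_X, Polynomial.eval_C]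
    rw [add_assoc]
  set p : ℕ → Polynomial ℕ := fun e =>
    (u e).2.2 + Polynomial.C 1 + (u e).2.1.p.comp (cl (u e).2.2) with hp
  obtain ⟨Φ, hΦ⟩ := exists_stageE R p (fun e => QB (u e)) (fun e x A => QB_local (u e) x A)
  refine ⟨Φ O, close_of_code hε hg hK' hRe (hΦ O).1, ?_⟩
  have hZ : ∀ e, IsZPP (Φ O) {x | QB (u e) x (Φ O)} := by
    intro e
    refine isZPP_of_code R p (Φ O) e _ ?_ ?_
    · intro x b w hw h
      exact ((hΦ O).2 e x b).1 w hw h
    · intro x b h
      exact ((hΦ O).2 e x b).2 h
  rintro L (⟨V, q, ⟨M, hM⟩, hV⟩ | ⟨V, q, ⟨M, hM⟩, hV⟩)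
  · obtain ⟨e, he⟩ := hu (true, M, q)
    have h1 := hZ e
    rw [he] at h1
    have h5 : L = {x | QB (true, M, q) x (Φ O)} := by
      ext x
      rw [hV x]
      simp only [Set.mem_ofPred_eq, QB, hM, Option.some.injEq]
    rw [h5]
    exact h1
  · obtain ⟨e, he⟩ := hu (false, M, q)
    have h1 := hZ e
    rw [he] at h1
    have h5 : L = {x | QB (false, M, q) x (Φ O)} := by
      ext x
      simp only [Set.mem_ofPred_eq, QB, hM, Option.some.injEq]
      obtain ⟨h6, h7⟩ := hV x
      unfold accPr at h6 h7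
      set N := Nat.card {w : Fin (q.eval x.length) → Bool //
        V (pairBits (List.ofFn w) x) = [true]} with hN
      have h8 : (1 : ℝ) / 2 ^ (x.length + 2) ≤ 1 / 4 := by
        apply one_div_le_one_div_of_le (by norm_num)
        calc (4 : ℝ) = 2 ^ 2 := by norm_num
          _ ≤ 2 ^ (x.length + 2) := pow_le_pow_right₀ (by norm_num) (by omega)
      have h9 : (0 : ℝ) < 2 ^ q.eval x.length := by positivity
      constructor
      · intro hx
        have h10 := h6 hx
        rw [le_div_iff₀ h9] at h10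
        have h11 : (2 : ℝ) ^ q.eval x.length ≤ 2 * N := by nlinarith
        exact_mod_cast h11
      · intro h10
        by_contra hx
        have h11 := h7 hx
        rw [div_le_iff₀ h9] at h11
        have h12 : (2 : ℝ) ^ q.eval x.length ≤ 2 * N := by exact_mod_cast h10
        nlinarith
    rw [h5]
    exact h1

end Pool.Agent.W900.RB
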