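import Pool.Agent.W900.RB.Stage
import Pool.Agent.W900.RB.Comb

/-!
# Markers and blocks in a region
-/

set_option autoImplicit false

namespace Pool.Agent.W900.RB

open Filter MeasureTheory
open Pool.Agent.NPC Pool.Agent.H622R2
open Pool.Agent.H620R2.Gauge
open Pool.Agent.H628R3.RO (randomOracle)

/-- a string in the region -/
def reg (n : ℕ) (z : List Bool) : List Bool := List.replicate n true ++ false :: z

theorem reg_inj {n m : ℕ} {z w : List Bool} (h : reg n z = reg m w) : n = m ∧ z = w := rep_inj' h

theorem reg_mem (n : ℕ) (z : List Bool) : reg n z ∈ Region n := ⟨z, rfl⟩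

theorem length_reg (n : ℕ) (z : List Bool) : (reg n z).length = n + 1 + z.length := by
  unfold reg
  simp
  ring

/-- the strings of the marker -/
def mk (n j : ℕ) : List Bool := reg n (false :: List.replicate j true)

/-- the strings of the block -/
def ps (n : ℕ) (c : Bool) (w : List Bool) : List Bool := reg n (true :: c :: w)

theorem mk_inj {n j j' : ℕ} (h : mk n j = mk n j') : j = j' := by
  have h1 := congrArg List.length h
  unfold mk at h1
  rw [length_reg, length_reg] at h1
  simpa using h1

theorem ps_inj {n : ℕ} {c c' : Bool} {w w' : List Bool} (h : ps n c w = ps n c' w') :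
    c = c' ∧ w = w' := by
  have h1 := (reg_inj h).2
  simpa using h1

/-- the marker is present -/
def Marked (A : Oracle) (n : ℕ) : Prop := ∀ j < n, A (mk n j) = true

/-- the number coded by the marker -/
def rr (A : Oracle) (n : ℕ) : ℕ := (((List.range n).map (fun j => A (mk n (n + j)))).filter
  (fun b => b)).length

/-- the contents of a region: the marker with number `r` and the answers `f c w` for the strings
`w` of length `r` -/
def cont (B : Oracle) (n r : ℕ) (f : Bool → List Bool → Bool) : List Bool → Bool
  | false :: t => if t = List.replicate t.length true ∧ t.length < 2 * n then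
      decide (t.length < n + r) else B (reg n (false :: t))
  | true :: c :: w => if w.length = r then f c w else B (reg n (true :: c :: w))
  | z => B (reg n z)

theorem cont_false (B : Oracle) (n r : ℕ) (f : Bool → List Bool → Bool) (t : List Bool) :
    cont B n r f (false :: t) = if t = List.replicate t.length true ∧ t.length < 2 * n then
      decide (t.length < n + r) else B (reg n (false :: t)) := rfl

theorem cont_true (B : Oracle) (n r : ℕ) (f : Bool → List Bool → Bool) (c : Bool)
    (w : List Bool) : cont B n r f (true :: c :: w) =
      if w.length = r then f c w else B (reg n (true :: c :: w)) := rfl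

open Classical in
/-- the oracle with these contents -/
noncomputable def setR (B : Oracle) (n r : ℕ) (f : Bool → List Bool → Bool) : Oracle := fun y =>
  if h : y ∈ Region n then cont B n r f h.choose else B y

theorem setR_reg (B : Oracle) (n r : ℕ) (f : Bool → List Bool → Bool) (z : List Bool) :
    setR B n r f (reg n z) = cont B n r f z := by
  have h : reg n z ∈ Region n := reg_mem n z
  unfold setR
  rw [dif_pos h]
  congr 1
  exact (rep_inj' h.choose_spec).2.symm

theorem setR_off (B : Oracle) (n r : ℕ) (f : Bool → List Bool → Bool) (y : List Bool)
    (h : y ∉ Region n) : setR B n r f y = B y := by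
  unfold setR
  rw [dif_neg h]

theorem setR_mk (B : Oracle) {n : ℕ} (r : ℕ) (f : Bool → List Bool → Bool) {j : ℕ}
    (h : j < 2 * n) : setR B n r f (mk n j) = decide (j < n + r) := by
  unfold mk
  rw [setR_reg, cont_false, if_pos]
  · simp
  · simp only [List.length_replicate, true_and]
    exact h

theorem setR_ps (B : Oracle) {n r : ℕ} (f : Bool → List Bool → Bool) {w : List Bool} (c : Bool)
    (h : w.length = r) : setR B n r f (ps n c w) = f c w := by
  unfold ps
  rw [setR_reg, cont_true, if_pos h]

theorem marked_setR (B : Oracle) (n r : ℕ) (f : Bool → List Bool → Bool) :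
    Marked (setR B n r f) n := by
  intro j hj
  rw [setR_mk B r f (by omega)]
  simp
  omega

theorem rr_setR (B : Oracle) {n r : ℕ} (f : Bool → List Bool → Bool) (hr : r ≤ n) :
    rr (setR B n r f) n = r := by
  unfold rr
  have h1 : (List.range n).map (fun j => setR B n r f (mk n (n + j))) =
      (List.range n).map (fun j => decide (j < r)) := by
    apply List.map_congr_left
    intro j hj
    rw [List.mem_range] at hj
    rw [setR_mk B r f (by omega)]
    apply decide_eq_decide.2
    omega
  rw [h1]
  have h2 : ∀ m : ℕ, (((List.range m).map (fun j => decide (j < r))).filter (fun b => b)).length =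
      min m r := by
    intro m
    induction m with
    | zero => simp
    | succ m ih =>
      rw [List.range_succ, List.map_append, List.filter_append, List.length_append, ih]
      by_cases h : m < r
      · simp [h]
        omega
      · simp [h]
        omega
  rw [h2]
  omega

/-- Only the marker and the block are changed. -/
theorem setR_diff (B : Oracle) (n r : ℕ) (f : Bool → List Bool → Bool) :
    {y | B y ≠ setR B n r f y} ⊆ (fun j => mk n j) '' (Set.Iio (2 * n)) ∪
      (fun s : Bool × (Fin r → Bool) => ps n s.1 (List.ofFn s.2)) '' Set.univ := by
  intro y hy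
  by_cases h : y ∈ Region n
  · obtain ⟨z, rfl⟩ := h
    change B (reg n z) ≠ setR B n r f (reg n z) at hy
    rw [setR_reg] at hy
    rcases z with _ | ⟨_ | _, z⟩
    · exact absurd rfl hy
    · left
      rw [cont_false] at hy
      split_ifs at hy with h1
      · refine ⟨z.length, h1.2, ?_⟩
        show reg n (false :: List.replicate z.length true) = _
        rw [← h1.1]
        rfl
      · exact absurd rfl hy
    · rcases z with _ | ⟨c, w⟩
      · exact absurd rfl hy
      · right
        rw [cont_true] at hy
        split_ifs at hy with h1
        · subst h1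
          refine ⟨(c, w.get), Set.mem_univ _, ?_⟩
          show reg n (true :: c :: List.ofFn w.get) = _
          rw [List.ofFn_get]
          rfl
        · exact absurd rfl hy
  · exact absurd (setR_off B n r f y h).symm hy

theorem setR_finite (B : Oracle) (n r : ℕ) (f : Bool → List Bool → Bool) :
    {y | B y ≠ setR B n r f y}.Finite :=
  (((Set.finite_Iio _).image _).union (Set.finite_univ.image _)).subset (setR_diff B n r f)

theorem setR_card (B : Oracle) (n r : ℕ) (f : Bool → List Bool → Bool) :
    {y | B y ≠ setR B n r f y}.ncard ≤ 2 * n + 2 * 2 ^ r := by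
  refine (Set.ncard_le_ncard (setR_diff B n r f)
    (((Set.finite_Iio _).image _).union (Set.finite_univ.image _))).trans ?_
  refine (Set.ncard_union_le _ _).trans (Nat.add_le_add ?_ ?_)
  · refine (Set.ncard_image_le (Set.finite_Iio _)).trans (le_of_eq ?_)
    rw [← Finset.coe_Iio, Set.ncard_coe_finset, Nat.card_Iio]
  · refine (Set.ncard_image_le Set.finite_univ).trans (le_of_eq ?_)
    rw [Set.ncard_univ, Nat.card_eq_fintype_card, Fintype.card_prod, Fintype.card_bool,
      Fintype.card_fun, Fintype.card_bool, Fintype.card_fin]

/-- For almost every oracle there are only finitely many markers. -/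
theorem ae_marked : ∀ᵐ O ∂randomOracle, ∀ᶠ n : ℕ in atTop, ¬ Marked O n := by
  classical
  have hms : ∀ n, randomOracle {O | Marked O n} ≤ (2⁻¹ : ENNReal) ^ n := by
    intro n
    have h1 : {O : Oracle | Marked O n} ⊆
        {B | (fun a : Fin n → Bool => ∀ i, a i = true) (fun i => B (mk n i))} := by
      intro O hO i
      exact hO i i.2
    refine (measure_mono h1).trans ((prob_le (fun i : Fin n => mk n i)
      (fun i j h => Fin.ext (mk_inj h)) (fun a => ∀ i, a i = true) ((1 / 2) ^ n) ?_).trans
      (le_of_eq ?_))
    · have h2 : (Finset.univ.filter fun a : Fin n → Bool => ∀ i, a i = true) = {fun _ => true} := by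
        ext a
        simp only [Finset.mem_filter, Finset.mem_univ, true_and, Finset.mem_singleton]
        exact ⟨fun h => funext h, fun h i => by rw [h]⟩
      have h3 : ((Finset.univ.filter fun a : Fin n → Bool => ∀ i, a i = true).card : ℝ) = 1 := by
        rw [h2]
        simp
      refine le_trans (le_of_eq ?_) (le_refl (1 : ℝ)) |>.trans (le_of_eq ?_)
      · rw [← h3]
        refine congrArg Nat.cast (congrArg Finset.card ?_)
        ext a
        simp only [Finset.mem_filter, Finset.mem_univ, true_and]
      · rw [Fintype.card_fin, ← mul_pow]
        norm_num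
    · rw [ENNReal.ofReal_pow (by norm_num)]
      congr 1
      rw [one_div, ENNReal.ofReal_inv_of_pos (by norm_num)]
      simp
  have hsum : ∑' n, randomOracle {O | Marked O n} ≠ ⊤ := by
    refine ne_top_of_le_ne_top ?_ (ENNReal.tsum_le_tsum hms)
    rw [ENNReal.tsum_geometric]
    simp
  filter_upwards [ae_eventually_notMem hsum] with O hO
  exact hO

end Pool.Agent.W900.RB
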