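import Pool.Agent.H620R2.GaugeX.X11
import Pool.Agent.H620R2.GaugeX.X7

/-!
# Simple relations between the randomized classes
-/

set_option autoImplicit false

namespace Pool.Agent.W900.RB

open Filter MeasureTheory
open Pool.Agent.NPC Pool.Agent.H622R2
open Pool.Agent.H620R2.Gauge

theorem accPr_one {V : List Bool → List Bool} {m : ℕ} {x : List Bool}
    (h : ∀ w : List Bool, w.length = m → V (pairBits w x) = [true]) : accPr V m x = 1 := by
  unfold accPr
  have h1 : Nat.card {w : Fin m → Bool // V (pairBits (List.ofFn w) x) = [true]} =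
      Nat.card (Fin m → Bool) := by
    apply Nat.card_congr
    exact Equiv.subtypeUnivEquiv (fun w => h _ (by simp))
  rw [h1]
  simp

theorem accPr_zero {V : List Bool → List Bool} {m : ℕ} {x : List Bool}
    (h : ∀ w : List Bool, w.length = m → V (pairBits w x) ≠ [true]) : accPr V m x = 0 := by
  unfold accPr
  have h1 : IsEmpty {w : Fin m → Bool // V (pairBits (List.ofFn w) x) = [true]} := by
    constructor
    rintro ⟨w, hw⟩
    exact h _ (by simp) hw
  rw [Nat.card_eq_zero.2 (Or.inl h1)]
  simp

theorem isFP_second {A : Oracle} {V : List Bool → List Bool} (hV : IsFP A V) :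
    IsFP A (fun z => V (unpair z).2) :=
  IsFP.comp hV (IsFP.of_poly (Poly.snd poly_unpair))

theorem isBPP_of_isP {A : Oracle} {L : Set (List Bool)} (h : IsP A L) : IsBPP A L := by
  obtain ⟨V, hV, hL⟩ := h
  refine ⟨fun z => V (unpair z).2, 0, isFP_second hV, fun x => ⟨fun hx => ?_, fun hx => ?_⟩⟩
  · rw [accPr_one]
    · have : (0 : ℝ) ≤ 1 / 2 ^ (x.length + 2) := by positivity
      linarith
    · intro w _
      simp only [unpair_pairBits]
      exact (hL x).1 hx
  · rw [accPr_zero]
    · positivity
    · intro w _
      simp only [unpair_pairBits]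
      exact fun h => hx ((hL x).2 h)

theorem isRP_of_isP {A : Oracle} {L : Set (List Bool)} (h : IsP A L) : IsRP A L := by
  obtain ⟨V, hV, hL⟩ := h
  refine ⟨fun z => V (unpair z).2, 0, isFP_second hV, fun x => ⟨fun hx => ?_, fun hx => ?_⟩⟩
  · rw [accPr_one]
    · norm_num
    · intro w _
      simp only [unpair_pairBits]
      exact (hL x).1 hx
  · rw [accPr_zero]
    intro w _
    simp only [unpair_pairBits]
    exact fun h => hx ((hL x).2 h)

theorem isZPP_of_isP {A : Oracle} {L : Set (List Bool)} (h : IsP A L) : IsZPP A L := by
  obtain ⟨V, hV, hL⟩ := h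
  have hf : IsFP A (fun z => if V (unpair z).2 = [true] then [true] else [false]) :=
    IsFP.comp (G := fun z => if z = [true] then [true] else [false])
      (IsFP.of_poly (Poly.ite (Poly.decide_eq Poly.id (NPC.Poly.const _)) (NPC.Poly.const _)
        (NPC.Poly.const _))) (isFP_second hV)
  refine ⟨_, 0, hf, fun x => ⟨fun w _ => ?_, ?_⟩⟩
  · simp only [unpair_pairBits]
    rw [hL x]
    by_cases h : V x = [true]
    · simp [h]
    · simp [h]
  · have h1 : Nat.card {w : Fin ((0 : Polynomial ℕ).eval x.length) → Bool //
        (fun z => if V (unpair z).2 = [true] then [true] else [false])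
          (pairBits (List.ofFn w) x) = [true] ∨
        (fun z => if V (unpair z).2 = [true] then [true] else [false])
          (pairBits (List.ofFn w) x) = [false]} =
        Nat.card (Fin ((0 : Polynomial ℕ).eval x.length) → Bool) := by
      apply Nat.card_congr
      refine Equiv.subtypeUnivEquiv (fun w => ?_)
      simp only [unpair_pairBits]
      by_cases h : V x = [true]
      · simp [h]
      · simp [h]
    rw [h1]
    norm_num

theorem isNP_of_isRP {A : Oracle} {L : Set (List Bool)} (h : IsRP A L) : IsNP A L := by
  obtain ⟨V, p, hV, hx⟩ := h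
  have hlen : Poly (fun q : List Bool × List Bool × List Bool =>
      decide ((unpair q.1).1.length = p.eval (unpair q.1).2.length)) := by
    have h1 : Poly (fun q : List Bool × List Bool × List Bool => unpair q.1) :=
      poly_unpair.comp (Poly.fst Poly.id)
    have hn : UPoly (fun q : List Bool × List Bool × List Bool => (unpair q.1).1.length) :=
      UPoly.length (Poly.fst h1)
    have hm : UPoly (fun q : List Bool × List Bool × List Bool =>
        p.eval (unpair q.1).2.length) := (UPoly.length (Poly.snd h1)).eval p
    exact Poly.decide_eq hn.toPoly hm.toPoly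
  have hψ : Poly (fun q : List Bool × List Bool × List Bool =>
      if (unpair q.1).1.length = p.eval (unpair q.1).2.length then q.2.1 else []) :=
    Poly.ite hlen (Poly.fst (Poly.snd Poly.id)) (NPC.Poly.const _)
  have hV' : IsFP A (fun y => if (unpair y).1.length = p.eval (unpair y).2.length then V y
      else []) := IsFP.seq (F := V) (G := V) (φ := fun q => q.1) hV hV (Poly.fst Poly.id) hψ
  refine ⟨_, p, hV', fun x => ⟨fun h => ?_, ?_⟩⟩
  · by_contra hc
    push Not at hc
    have h1 : accPr V (p.eval x.length) x = 0 := by
      refine accPr_zero fun w hw h2 => ?_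
      refine hc w hw.le ?_
      simp only [unpair_pairBits, if_pos hw]
      exact h2
    have h3 := (hx x).1 h
    rw [h1] at h3
    norm_num at h3
  · rintro ⟨w, _, hw⟩
    simp only [unpair_pairBits] at hw
    by_cases h : w.length = p.eval x.length
    · rw [if_pos h] at hw
      by_contra hL
      have h1 := (hx x).2 hL
      unfold accPr at h1
      have h2 : 0 < Nat.card {w : Fin (p.eval x.length) → Bool //
          V (pairBits (List.ofFn w) x) = [true]} := by
        apply Nat.card_pos_iff.2
        refine ⟨⟨fun i => w[(i : ℕ)]'(by rw [h]; exact i.2), ?_⟩, inferInstance⟩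
        have h3 : List.ofFn (fun i : Fin (p.eval x.length) => w[(i : ℕ)]'(by rw [h]; exact i.2)) =
            w := by
          apply List.ext_getElem
          · simp [h]
          · intro i h1 h2
            simp
        rw [h3]
        exact hw
      rw [div_eq_zero_iff] at h1
      rcases h1 with h1 | h1
      · have : (0 : ℝ) < (Nat.card {w : Fin (p.eval x.length) → Bool //
          V (pairBits (List.ofFn w) x) = [true]} : ℝ) := by exact_mod_cast h2
        linarith
      · exact absurd h1 (by positivity)
    · rw [if_neg h] at hw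
      exact absurd hw (by simp)

theorem isRP_of_isZPP {A : Oracle} {L : Set (List Bool)} (h : IsZPP A L) : IsRP A L := by
  obtain ⟨V, p, hV, hL⟩ := h
  refine ⟨V, p, hV, fun x => ⟨fun hx => ?_, fun hx => ?_⟩⟩
  · refine (hL x).2.trans ?_
    unfold accPr
    gcongr
    apply Nat.card_mono (Set.toFinite _)
    rintro w (hw | hw)
    · exact hw
    · exact absurd hx (((hL x).1 _ (by simp)).2 hw)
  · exact accPr_zero fun w hw h => hx (((hL x).1 w hw).1 h)

theorem isRP_compl_of_isZPP {A : Oracle} {L : Set (List Bool)} (h : IsZPP A L) : IsRP A Lᶜ := by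
  obtain ⟨V, p, hV, hL⟩ := h
  have hf : IsFP A (fun z => if V z = [false] then [true] else []) :=
    IsFP.comp (G := fun z => if z = [false] then [true] else [])
      (IsFP.of_poly (Poly.ite (Poly.decide_eq Poly.id (NPC.Poly.const _)) (NPC.Poly.const _)
        (NPC.Poly.const _))) hV
  refine ⟨_, p, hf, fun x => ⟨fun hx => ?_, fun hx => ?_⟩⟩
  · refine (hL x).2.trans ?_
    unfold accPr
    gcongr
    apply Nat.card_mono (Set.toFinite _)
    rintro w (hw | hw)
    · exact absurd (((hL x).1 _ (by simp)).1 hw) hx
    · change (if V (pairBits (List.ofFn w) x) = [false] then [true] else []) = [true]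
      rw [if_pos hw]
  · refine accPr_zero fun w hw h => ?_
    simp only [ite_eq_left_iff, reduceCtorEq, imp_false, not_not] at h
    exact hx (fun h' => ((hL x).1 w hw).2 h h')

end Pool.Agent.W900.RB
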