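import Pool.Agent.W900.RB.Zpp
import Pool.Agent.W900.RB.Basic
import Pool.Agent.W900.IE.Cls

/-!
# Repetition of algorithms with one-sided error: `RP ⊆ BPP`
-/

set_option autoImplicit false

namespace Pool.Agent.W900.RB

open MeasureTheory Finset
open Pool.Agent.NPC Pool.Agent.H622R2
open Pool.Agent.H628R3.RO (randomOracle)
open Pool.Agent.H620R2.Gauge

/-- the `i`-th part of the coins of `z`, for an algorithm which takes `p` coins -/
noncomputable def blk (p : Polynomial ℕ) (y : ℕ × List Bool) : List Bool :=
  (List.range (p.eval (unpair y.2).2.length)).map (fun j =>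
    (unpair y.2).1.getD (y.1 * p.eval (unpair y.2).2.length + j) false)

theorem poly_blk (p : Polynomial ℕ) : Poly (blk p) := by
  have hz : Poly (fun y : (ℕ × List Bool) × ℕ => unpair y.1.2) :=
    poly_unpair.comp (Poly.snd (Poly.fst Poly.id))
  have hl : UPoly (fun y : (ℕ × List Bool) × ℕ => p.eval (unpair y.1.2).2.length) :=
    (UPoly.length (Poly.snd hz)).eval p
  have hk : Poly (fun y : (ℕ × List Bool) × ℕ => y.1.1 * p.eval (unpair y.1.2).2.length + y.2) :=
    Poly.add (Poly.mul (Poly.fst (Poly.fst Poly.id)) hl.toPoly) (Poly.snd Poly.id)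
  have hg : Poly (fun y : (ℕ × List Bool) × ℕ =>
      (unpair y.1.2).1.getD (y.1.1 * p.eval (unpair y.1.2).2.length + y.2) false) :=
    Poly.getD (Poly.fst hz) hk (NPC.Poly.const false)
  have hz' : Poly (fun y : ℕ × List Bool => unpair y.2) := poly_unpair.comp (Poly.snd Poly.id)
  exact NPC.Poly.map (F := fun (y : ℕ × List Bool) j =>
    (unpair y.2).1.getD (y.1 * p.eval (unpair y.2).2.length + j) false)
    ((UPoly.length (Poly.snd hz')).eval p).range hg

theorem blk_eq {p : Polynomial ℕ} {x w : List Bool} {i m : ℕ} (hi : i < m)
    (hw : w.length = m * p.eval x.length) :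
    blk p (i, pairBits w x) = chunk (p.eval x.length) i w := by
  unfold blk
  simp only [unpair_pairBits]
  have h1 : (i + 1) * p.eval x.length ≤ m * p.eval x.length := Nat.mul_le_mul_right _ hi
  rw [Nat.add_mul, one_mul] at h1
  apply List.ext_getElem
  · rw [length_chunk hw hi]
    simp
  · intro j h2 h3
    simp only [List.getElem_map, List.getElem_range, chunk, List.getElem_take, List.getElem_drop]
    rw [List.length_map, List.length_range] at h2
    rw [List.getD_eq_getElem _ _ (by omega)]

open Classical in
/-- `V` is run with several parts of the coins -/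
noncomputable def amp (V : List Bool → List Bool) (p k : Polynomial ℕ) (z : List Bool) :
    List Bool :=
  if ∃ i < k.eval (unpair z).2.length, V (pairBits (blk p (i, z)) (unpair z).2) = [true]
  then [true] else []

theorem length_unpair_snd (z : List Bool) : (unpair z).2.length ≤ z.length := by
  have h : ∀ (n : ℕ) (a : List Bool) (l : List Bool) (b : Bool),
      (ustep^[n] (a, l, b)).2.1.length ≤ l.length := by
    intro n
    induction n with
    | zero => intro a l b; exact le_refl _
    | succ n ih =>
      intro a l b
      rw [Function.iterate_succ_apply]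
      have h1 : (ustep (a, l, b)).2.1.length ≤ l.length := by
        unfold ustep
        split_ifs
        · exact le_refl _
        · rcases l with _ | ⟨c, l⟩
          · exact le_refl _
          · rcases c
            · simp
            · rcases l with _ | ⟨d, l⟩
              · simp
              · simp
                omega
      refine le_trans ?_ h1
      exact ih (ustep (a, l, b)).1 (ustep (a, l, b)).2.1 (ustep (a, l, b)).2.2
  exact h z.length [] z false

theorem isFP_amp {A : Oracle} {V : List Bool → List Bool} (hV : IsFP A V) (p k : Polynomial ℕ) :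
    IsFP A (amp V p k) := by
  have hz : Poly (fun y : (ℕ × List Bool) × List Bool => unpair y.1.2) :=
    poly_unpair.comp (Poly.snd (Poly.fst Poly.id))
  have hW : Poly (fun y : (ℕ × List Bool) × List Bool =>
      pairBits (blk p y.1) (unpair y.1.2).2) :=
    poly_pairBits ((poly_blk p).comp (Poly.fst Poly.id)) (Poly.snd hz)
  have hz' : Poly (fun y : List Bool × List Bool => unpair y.1) :=
    poly_unpair.comp (Poly.fst Poly.id)
  have hH : Poly (fun y : List Bool × List Bool =>
      if (y.2.take (k.eval (unpair y.1).2.length)).any (fun b => b) = true then [true]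
      else []) := by
    refine Poly.ite (Poly.decide_bool (Poly.any (p := fun (_ : List Bool × List Bool) (b : Bool) =>
      b) (IE.poly_take (Poly.snd Poly.id) ((UPoly.length (Poly.snd hz')).eval k))
        (Poly.snd Poly.id))) (NPC.Poly.const _) (NPC.Poly.const _)
  have hQ : Poly (fun _ : ℕ × List Bool => ([] : List (List Bool))) := NPC.Poly.const _
  have hF := IsFP.votes hV k hQ hW hH
  refine (congrArg (IsFP A) (funext fun z => ?_)).mp hF
  have h2 := eval_mono k (length_unpair_snd z)
  dsimp only
  unfold amp
  congr 1
  rw [eq_iff_iff, List.any_eq_true]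
  constructor
  · rintro ⟨b, hb, h3⟩
    subst h3
    obtain ⟨i, hi, h4⟩ := List.getElem_of_mem hb
    rw [List.length_take, List.length_map, List.length_range] at hi
    simp only [List.getElem_take, List.getElem_map, List.getElem_range] at h4
    exact ⟨i, by omega, of_decide_eq_true h4⟩
  · rintro ⟨i, hi, h3⟩
    refine ⟨true, ?_, rfl⟩
    rw [List.mem_take_iff_getElem]
    refine ⟨i, by simp; omega, ?_⟩
    simp only [List.getElem_map, List.getElem_range]
    exact decide_eq_true h3

open Classical in
theorem card_all_bad' (m p : ℕ) (Bad : List Bool → Prop)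
    (h : 2 * Nat.card {w : Fin p → Bool // Bad (List.ofFn w)} ≤ 2 ^ p) :
    2 ^ m * Nat.card {r : Fin (m * p) → Bool // ∀ j < m, Bad (chunk p j (List.ofFn r))} ≤
      2 ^ (m * p) := by
  let e : (Fin (m * p) → Bool) ≃ (Fin m → Fin p → Bool) :=
    (Equiv.arrowCongr finProdFinEquiv.symm (Equiv.refl Bool)).trans (Equiv.curry _ _ _)
  have he : ∀ (r : Fin (m * p) → Bool) (j : Fin m), chunk p j (List.ofFn r) = List.ofFn (e r j) := by
    intro r j
    rw [chunk_ofFn j.2]
    rfl
  have h1 : Nat.card {r : Fin (m * p) → Bool // ∀ j < m, Bad (chunk p j (List.ofFn r))} =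
      (Fintype.piFinset (fun _ : Fin m => univ.filter fun w : Fin p → Bool =>
        Bad (List.ofFn w))).card := by
    rw [Nat.card_eq_fintype_card, Fintype.card_subtype]
    refine card_bij' (fun r _ => e r) (fun f _ => e.symm f) ?_ ?_ ?_ ?_
    · intro r hr
      rw [mem_filter] at hr
      rw [Fintype.mem_piFinset]
      intro j
      rw [mem_filter]
      refine ⟨mem_univ _, ?_⟩
      rw [← he]
      exact hr.2 j j.2
    · intro f hf
      rw [Fintype.mem_piFinset] at hf
      rw [mem_filter]
      refine ⟨mem_univ _, fun j hj => ?_⟩
      have h2 := he (e.symm f) ⟨j, hj⟩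
      rw [Equiv.apply_symm_apply] at h2
      have h3 := hf ⟨j, hj⟩
      rw [mem_filter, ← h2] at h3
      exact h3.2
    · intro r _
      exact e.symm_apply_apply r
    · intro f _
      exact e.apply_symm_apply f
  rw [h1, Fintype.card_piFinset_const]
  rw [Nat.card_eq_fintype_card, Fintype.card_subtype] at h
  calc 2 ^ m * (univ.filter fun w : Fin p → Bool => Bad (List.ofFn w)).card ^ m
      = (2 * (univ.filter fun w : Fin p → Bool => Bad (List.ofFn w)).card) ^ m := by
        rw [mul_pow]
    _ ≤ (2 ^ p) ^ m := Nat.pow_le_pow_left h m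
    _ = 2 ^ (m * p) := by rw [← pow_mul, mul_comm]

theorem isBPP_of_isRP {A : Oracle} {L : Set (List Bool)} (h : IsRP A L) : IsBPP A L := by
  classical
  obtain ⟨V, p, hV, hL⟩ := h
  refine ⟨amp V p (Polynomial.X + 2), (Polynomial.X + 2) * p, isFP_amp hV p _, fun x => ?_⟩
  have hk : (Polynomial.X + 2 : Polynomial ℕ).eval x.length = x.length + 2 := by simp
  have hP : ((Polynomial.X + 2 : Polynomial ℕ) * p).eval x.length =
      (x.length + 2) * p.eval x.length := by simp
  have hamp : ∀ w : List Bool, w.length = (x.length + 2) * p.eval x.length →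
      (amp V p (Polynomial.X + 2) (pairBits w x) = [true] ↔
        ∃ i < x.length + 2, V (pairBits (chunk (p.eval x.length) i w) x) = [true]) := by
    intro w hw
    unfold amp
    simp only [unpair_pairBits, hk]
    constructor
    · intro h
      split_ifs at h with h1
      · obtain ⟨i, hi, h2⟩ := h1
        rw [blk_eq hi hw] at h2
        exact ⟨i, hi, h2⟩
    · rintro ⟨i, hi, h2⟩
      rw [if_pos ⟨i, hi, by rw [blk_eq hi hw]; exact h2⟩]
  rw [hP]
  refine ⟨fun hx => ?_, fun hx => ?_⟩
  · have h1 := (hL x).1 hx
    set P := p.eval x.length with hPd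
    have h2 : 2 * Nat.card {w : Fin P → Bool // ¬ V (pairBits (List.ofFn w) x) = [true]} ≤
        2 ^ P := by
      have e1 : Nat.card {w : Fin P → Bool // V (pairBits (List.ofFn w) x) = [true]} +
          Nat.card {w : Fin P → Bool // ¬ V (pairBits (List.ofFn w) x) = [true]} = 2 ^ P := by
        rw [Nat.card_eq_fintype_card, Nat.card_eq_fintype_card, Fintype.card_subtype,
          Fintype.card_subtype, card_filter_add_card_filter_not, card_univ, Fintype.card_fun,
          Fintype.card_bool, Fintype.card_fin]
      unfold accPr at h1
      rw [le_div_iff₀ (by positivity)] at h1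
      have e2 : (2 : ℝ) ^ P = (Nat.card {w : Fin P → Bool // V (pairBits (List.ofFn w) x) = [true]} : ℝ) +
          Nat.card {w : Fin P → Bool // ¬ V (pairBits (List.ofFn w) x) = [true]} := by
        exact_mod_cast e1.symm
      have e3 : 2 * (Nat.card {w : Fin P → Bool // ¬ V (pairBits (List.ofFn w) x) = [true]} : ℝ) ≤
          2 ^ P := by linarith
      exact_mod_cast e3
    have h3 := card_all_bad' (x.length + 2) P (fun w => ¬ V (pairBits w x) = [true]) h2
    set N := (x.length + 2) * P with hN
    have h4 : Nat.card {r : Fin N → Bool // ∀ j < x.length + 2,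
        ¬ V (pairBits (chunk P j (List.ofFn r)) x) = [true]} =
        Nat.card {r : Fin N → Bool // ¬ amp V p (Polynomial.X + 2) (pairBits (List.ofFn r) x) =
          [true]} := by
      apply Nat.card_congr
      refine Equiv.subtypeEquivRight fun r => ?_
      rw [hamp _ (by simp)]
      push Not
      rfl
    rw [h4] at h3
    have e1 : Nat.card {w : Fin N → Bool // amp V p (Polynomial.X + 2)
          (pairBits (List.ofFn w) x) = [true]} +
        Nat.card {w : Fin N → Bool // ¬ amp V p (Polynomial.X + 2)
          (pairBits (List.ofFn w) x) = [true]} = 2 ^ N := by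
      rw [Nat.card_eq_fintype_card, Nat.card_eq_fintype_card, Fintype.card_subtype,
        Fintype.card_subtype, card_filter_add_card_filter_not, card_univ, Fintype.card_fun,
        Fintype.card_bool, Fintype.card_fin]
    have e2 : (Nat.card {w : Fin N → Bool // amp V p (Polynomial.X + 2)
          (pairBits (List.ofFn w) x) = [true]} : ℝ) +
        Nat.card {w : Fin N → Bool // ¬ amp V p (Polynomial.X + 2)
          (pairBits (List.ofFn w) x) = [true]} = 2 ^ N := by exact_mod_cast e1
    have e3 : (2 : ℝ) ^ (x.length + 2) * Nat.card {w : Fin N → Bool //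
        ¬ amp V p (Polynomial.X + 2) (pairBits (List.ofFn w) x) = [true]} ≤ 2 ^ N := by
      exact_mod_cast h3
    unfold accPr
    rw [le_div_iff₀ (by positivity), sub_mul, one_mul, div_mul_eq_mul_div, one_mul,
      sub_le_iff_le_add, ← e2]
    gcongr
    rw [e2, le_div_iff₀ (by positivity), mul_comm]
    exact e3
  · rw [accPr_zero]
    · positivity
    · intro w hw
      rw [Ne, hamp w hw]
      rintro ⟨i, hi, h2⟩
      have h3 := (hL x).2 hx
      unfold accPr at h3
      rw [div_eq_zero_iff] at h3
      rcases h3 with h3 | h3
      · have h4 : Nat.card {w : Fin (p.eval x.length) → Bool //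
            V (pairBits (List.ofFn w) x) = [true]} = 0 := by exact_mod_cast h3
        rw [Nat.card_eq_zero] at h4
        rcases h4 with h4 | h4
        · refine h4.false ⟨fun l => (chunk (p.eval x.length) i w).get
            (Fin.cast (length_chunk hw hi).symm l), ?_⟩
          have h5 : List.ofFn (fun l => (chunk (p.eval x.length) i w).get
              (Fin.cast (length_chunk hw hi).symm l)) = chunk (p.eval x.length) i w := by
            apply List.ext_getElem
            · simp [length_chunk hw hi]
            · intro j h1 h2
              simp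
          rw [h5]
          exact h2
        · exact absurd h4 (not_infinite_iff_finite.2 inferInstance)
      · exact absurd h3 (by positivity)

end Pool.Agent.W900.RB
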