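import Pool.Agent.W900.RB.NX
import Pool.Agent.W900.RB.Gap

/-!
# Random oracles with changes: summary
-/

set_option autoImplicit false

namespace Pool.Agent.W900.RB

open Filter MeasureTheory
open Pool.Agent.NPC Pool.Agent.H622R2
open Pool.Agent.H620R2.Gauge
open Pool.Agent.H628R3.RO (randomOracle)
open Pool.Agent.W900.CH (Close ae_coNP)

theorem withAdvice_compl {A : Oracle} {L : Set (List Bool)} (h : IsBPP A L) :
    WithAdvice (IsNP A) Lᶜ := by
  obtain ⟨L', h', p, h1, h2, h3⟩ := (isBPP_compl h).withAdvice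
  exact ⟨L', h', p, h1.isNP, h2, h3⟩

theorem super_of_not {g : ℕ → ℝ}
    (h : ¬ ∃ c : ℕ, ∀ᶠ n : ℕ in Filter.atTop, ∃ m ≥ n, g m ≤ (n : ℝ) ^ c) : Super g := by
  by_contra hs
  unfold Super at hs
  push Not at hs
  exact h hs

/-- superpolynomially many changes: `RP ⊄ coNP` and `NP ⊄ coNP/poly` at once -/
theorem exists_rp_np {g : ℕ → ℝ} (hg : Super g) : ∀ᵐ O ∂randomOracle, ∃ A : Oracle,
    Close g O A ∧ (∃ L, IsRP A L ∧ ¬ IsNP A Lᶜ) ∧
      ∃ L, IsNP A L ∧ ¬ WithAdvice (IsNP A) Lᶜ := by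
  obtain ⟨g', h1, h2, h3⟩ := exists_min hg
  filter_upwards [exists_rp h2, ae_coNP h3] with O h4 h5
  obtain ⟨A, hA, h6⟩ := h4
  exact ⟨A, close_mono h1 hA, h6, h5 A hA⟩

end Pool.Agent.W900.RB
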