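import Pool.Agent.W900.RB.RDiag
import Pool.Agent.W900.RB.Amp

/-!
# Superpolynomially many changes allow to separate `RP` and `coNP`: the end of the proof
-/

set_option autoImplicit false

namespace Pool.Agent.W900.RB

open Filter MeasureTheory
open Pool.Agent.NPC Pool.Agent.H622R2
open Pool.Agent.H620R2.Gauge
open Pool.Agent.H628R3.RO (randomOracle)
open Pool.Agent.W900.CH (Close)

theorem isRP_of_stage {A : Oracle} {n : ℕ → ℕ} (hn : StrictMono n) {N₀ : ℕ}
    (hN₀ : ∀ k, N₀ ≤ n k) {M : ℕ → Alg} {p : ℕ → Polynomial ℕ}
    (hW : ∀ k, WR (M k) (p k) (n k) A)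
    (hM : ∀ m, N₀ ≤ m → (∀ k, m ≠ n k) → ¬ Marked A m) :
    ∃ L, IsRP A L ∧ ∀ k, (List.replicate (n k) true ∈ L ↔
      ∃ w : List Bool, w.length ≤ (p k).eval (n k) ∧
        (M k).out A (pairBits w (List.replicate (n k) true)) = some [true]) := by
  classical
  choose r b hr hmark hrr hfalse htrue hdiag using hW
  have hstage : ∀ (k : ℕ) (w : List Bool), (Vz A N₀ (pairBits w (List.replicate (n k) true)) = [true] ↔
      Both A (n k) (w.take (r k))) := by
    intro k w
    have hl : (List.replicate (n k) true).length = n k := by simp
    have h := (Vz_out A N₀ w (List.replicate (n k) true)).2.2.2 (by rw [hl]; exact hN₀ k)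
      (by rw [hl]) (by rw [hl]; exact hmark k) (by rw [hl, hrr]; exact hr k)
    rw [hl, hrr] at h
    rw [h]
    unfold Both
    by_cases h1 : A (ps (n k) false (w.take (r k))) = true
    · by_cases h2 : A (ps (n k) true (w.take (r k))) = true
      · simp [h1, h2]
      · simp [h1, h2]
    · simp [h1]
  refine ⟨{x | ∃ k, x = List.replicate (n k) true ∧ b k = true}, ?_, ?_⟩
  · refine ⟨Vz A N₀, Polynomial.X, Vz_fp A N₀, fun x => ?_⟩
    rw [Polynomial.eval_X]
    by_cases hst : ∃ k, x = List.replicate (n k) true
    · -- a stage
      obtain ⟨k, hk⟩ := hst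
      subst hk
      have hl : (List.replicate (n k) true).length = n k := by simp
      have hmem : List.replicate (n k) true ∈
          {x | ∃ k, x = List.replicate (n k) true ∧ b k = true} ↔ b k = true := by
        constructor
        · rintro ⟨k', h5, h6⟩
          have h7 : n k = n k' := by
            have := congrArg List.length h5
            simpa using this
          rw [hn.injective h7]
          exact h6
        · intro h
          exact ⟨k, rfl, h⟩
      rw [hmem, hl]
      refine ⟨fun hb => ?_, fun hb => ?_⟩
      · have h7 := card_prefix (fun u => ¬ Both A (n k) u) (r := r k) (m := n k) (hr k).le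
        have h8 := htrue k hb
        rw [Nat.card_eq_fintype_card, Fintype.card_subtype] at h7
        have h9 := Finset.card_filter_add_card_filter_not
          (s := (Finset.univ : Finset (Fin (n k) → Bool)))
          (fun w => Both A (n k) ((List.ofFn w).take (r k)))
        rw [Finset.card_univ, Fintype.card_fun, Fintype.card_bool, Fintype.card_fin] at h9
        have h10 : 2 ^ (r k) * 2 ^ (n k - r k) = 2 ^ (n k) := by
          rw [← pow_add]
          congr 1
          have := hr k
          omega
        have h11 : 2 * (Finset.univ.filter fun w : Fin (n k) → Bool =>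
            ¬ Both A (n k) ((List.ofFn w).take (r k))).card ≤ 2 ^ (n k) := by
          calc 2 * (Finset.univ.filter fun w : Fin (n k) → Bool =>
                ¬ Both A (n k) ((List.ofFn w).take (r k))).card
              = (2 * Nat.card {u : Fin (r k) → Bool // ¬ Both A (n k) (List.ofFn u)}) *
                2 ^ (n k - r k) := by
                rw [mul_assoc, ← h7]
            _ ≤ 2 ^ (r k) * 2 ^ (n k - r k) := Nat.mul_le_mul_right _ h8
            _ = 2 ^ (n k) := h10
        unfold accPr
        rw [Nat.card_eq_fintype_card, Fintype.card_subtype]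
        have h12 : (Finset.univ.filter fun w : Fin (n k) → Bool =>
            Vz A N₀ (pairBits (List.ofFn w) (List.replicate (n k) true)) = [true]) =
            Finset.univ.filter fun w : Fin (n k) → Bool =>
              Both A (n k) ((List.ofFn w).take (r k)) := by
          ext w
          simp only [Finset.mem_filter, Finset.mem_univ, true_and]
          exact hstage k _
        rw [h12, div_le_div_iff₀ (by norm_num) (by positivity), one_mul]
        have h13 : 2 ^ (n k) ≤ (Finset.univ.filter fun w : Fin (n k) → Bool =>
            Both A (n k) ((List.ofFn w).take (r k))).card * 2 := by omega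
        exact_mod_cast h13
      · refine accPr_zero fun w hw h => ?_
        rw [hstage] at h
        have hwl : (w.take (r k)).length = r k := by
          rw [List.length_take, hw]
          exact min_eq_left (hr k).le
        exact hfalse k (by simpa using hb) _ hwl h
    · -- not a stage
      have hV : ∀ w, Vz A N₀ (pairBits w x) = [false] := by
        intro w
        have h1 := Vz_out A N₀ w x
        by_cases h5 : x.length < N₀
        · exact h1.1 h5
        · by_cases h6 : x = List.replicate x.length true
          · apply h1.2.2.1
            apply hM _ (by omega)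
            intro k hk
            apply hst
            exact ⟨k, by rw [← hk]; exact h6⟩
          · exact h1.2.1 h6
      refine ⟨?_, fun _ => ?_⟩
      · rintro ⟨k, hk, _⟩
        exact absurd ⟨k, hk⟩ hst
      · refine accPr_zero fun w _ => ?_
        rw [hV w]
        simp
  · intro k
    rw [← hdiag k]
    constructor
    · rintro ⟨k', h5, h6⟩
      have h7 : n k = n k' := by
        have := congrArg List.length h5
        simpa using this
      rw [hn.injective h7]
      exact h6
    · intro h
      exact ⟨k, rfl, h⟩

/-- Almost every oracle can be changed at superpolynomially many strings such that `RP` is not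
contained in `coNP`. -/
theorem exists_rp {g : ℕ → ℝ} (hg : Super g) : ∀ᵐ O ∂randomOracle, ∃ A : Oracle, Close g O A ∧
    ∃ L, IsRP A L ∧ ¬ IsNP A Lᶜ := by
  have hc := CC.poly_countable
  obtain ⟨al, hal⟩ := exists_alg
  obtain ⟨pl, hpl⟩ := exists_surjective_nat (Polynomial ℕ)
  filter_upwards [ae_marked] with O hO
  obtain ⟨N₀, hN₀⟩ := eventually_atTop.1 hO
  set M : ℕ → Alg := fun k => al (Nat.unpair k).1 with hMd
  set p : ℕ → Polynomial ℕ := fun k => pl (Nat.unpair k).2 with hpd
  obtain ⟨A, n, h1, h2, h3, h4, h5⟩ := stages hg O (fun k n A => WR (M k) (p k) n A)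
    (fun k => Polynomial.C 2 * Polynomial.X + Polynomial.C 8 * (M k).p.comp (cl (p k)) +
      Polynomial.C 4)
    (fun k => (SP.out_local (M k)).choose.comp (cl (p k)) + Polynomial.C 3 * Polynomial.X +
      Polynomial.C 3) N₀ (fun k => taskR (M k) (p k))
  refine ⟨A, h3, ?_⟩
  obtain ⟨L, hL, hd⟩ := isRP_of_stage h1 h2 h5 (by
    intro m hm hk hmark
    apply hN₀ m hm
    intro j hj
    rw [← h4]
    · exact hmark j hj
    · intro k hr
      exact hk k (region_inj (reg_mem m _) hr))
  refine ⟨L, hL, ?_⟩
  rintro ⟨V, q, ⟨M', hM'⟩, hV⟩
  obtain ⟨i, hi⟩ := hal M'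
  obtain ⟨j, hj⟩ := hpl q
  have hMk : M (Nat.pair i j) = M' := by rw [hMd]; simp [hi]
  have hpk : p (Nat.pair i j) = q := by rw [hpd]; simp [hj]
  set k := Nat.pair i j with hk
  have h6 := hd k
  have h7 := hV (List.replicate (n k) true)
  rw [List.length_replicate] at h7
  simp only [hMk, hpk, hM', Option.some.injEq] at h6
  rw [← h7, Set.mem_compl_iff] at h6
  tauto

end Pool.Agent.W900.RB
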