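import Pool.Agent.W900.CH.NELev
import Pool.Agent.W900.RB.RFin

/-!
# Few changes of an arbitrary oracle: `NP ⊆ BPP` and `BPP ⊄ NP`
-/

set_option autoImplicit false

namespace Pool.Agent.W900.RB

open Filter MeasureTheory
open Pool.Agent.NPC Pool.Agent.H622R2
open Pool.Agent.H620R2.Gauge
open Pool.Agent.H628R3.RO (randomOracle)
open Pool.Agent.W900.CH (Close exists_K close_of_code)

/-- the complement of a language in `BPP` -/
theorem isBPP_compl {A : Oracle} {L : Set (List Bool)} (h : IsBPP A L) : IsBPP A Lᶜ := by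
  classical
  obtain ⟨V, p, hV, hL⟩ := h
  have hf : IsFP A (fun z => if V z = [true] then [] else [true]) :=
    IsFP.comp (G := fun z => if z = [true] then [] else [true])
      (IsFP.of_poly (Poly.ite (Poly.decide_eq Poly.id (NPC.Poly.const _)) (NPC.Poly.const _)
        (NPC.Poly.const _))) hV
  refine ⟨_, p, hf, fun x => ?_⟩
  have h1 : accPr (fun z => if V z = [true] then [] else [true]) (p.eval x.length) x =
      1 - accPr V (p.eval x.length) x := by
    unfold accPr
    rw [eq_sub_iff_add_eq, ← add_div, div_eq_one_iff_eq (by positivity)]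
    have h2 : Nat.card {w : Fin (p.eval x.length) → Bool //
        (fun z => if V z = [true] then [] else [true]) (pairBits (List.ofFn w) x) = [true]} +
        Nat.card {w : Fin (p.eval x.length) → Bool // V (pairBits (List.ofFn w) x) = [true]} =
        2 ^ p.eval x.length := by
      have h3 := Finset.card_filter_add_card_filter_not
        (s := (Finset.univ : Finset (Fin (p.eval x.length) → Bool)))
        (fun w => V (pairBits (List.ofFn w) x) = [true])
      rw [Finset.card_univ, Fintype.card_fun, Fintype.card_bool, Fintype.card_fin] at h3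
      rw [Nat.card_eq_fintype_card, Nat.card_eq_fintype_card, Fintype.card_subtype,
        Fintype.card_subtype, add_comm, ← h3]
      congr 2
      ext w
      simp only [Finset.mem_filter, Finset.mem_univ, true_and]
      by_cases h : V (pairBits (List.ofFn w) x) = [true]
      · simp [h]
      · simp [h]
    exact_mod_cast h2
  rw [h1]
  obtain ⟨h2, h3⟩ := hL x
  refine ⟨fun hx => ?_, fun hx => ?_⟩
  · have := h3 hx
    linarith
  · have := h2 (by simpa using hx)
    linarith

/-- the questions: nondeterministic exponential time, or (for `none`) diagonal -/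
def QN (al : ℕ → Alg) (pl : ℕ → Polynomial ℕ) (n : ℕ → ℕ) :
    Option (Alg × Polynomial ℕ) → List Bool → Oracle → Prop
  | none, x, A => ∃ j, x = List.replicate (n j) true ∧ ∃ w : List Bool,
      w.length ≤ (pl j).eval (n j) ∧ (al j).out A (pairBits w x) = some [true]
  | some (M, q), x, A => ∃ w : List Bool, w.length = 2 ^ q.eval x.length ∧
      M.out A (pairBits w x) = some [true]

theorem QN_local {al : ℕ → Alg} {pl : ℕ → Polynomial ℕ} {n : ℕ → ℕ}
    (hn2 : ∀ j, ((al j).p.comp (cl (pl j))).eval (n j) ≤ 2 ^ n j)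
    (i : Option (Alg × Polynomial ℕ)) : ∃ r : Polynomial ℕ, ∀ (x : List Bool) (A : Oracle),
      QN al pl n i x A → ∃ U : Finset (List Bool), U.card ≤ 2 ^ r.eval x.length ∧
        ∀ A' : Oracle, (∀ u ∈ U, A' u = A u) → QN al pl n i x A' := by
  rcases i with _ | ⟨M, q⟩
  · refine ⟨Polynomial.X, ?_⟩
    rintro x A ⟨j, hx, w, hw, h⟩
    obtain ⟨U, hU1, hU2⟩ := run_local (al j) A (pairBits w x)
      ((al j).p.eval (pairBits w x).length) []
    have hxl : x.length = n j := by rw [hx]; simp
    refine ⟨U, hU1.trans ?_, fun A' hA' => ⟨j, hx, w, hw, (hU2 A' hA').trans h⟩⟩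
    rw [Polynomial.eval_X, hxl]
    refine le_trans (eval_mono _ (len_cert hw hxl)) ?_
    have := hn2 j
    rwa [Polynomial.eval_comp] at this
  · exact nexp_local M q

open Classical in
/-- Every oracle can be changed at few strings such that nondeterministic exponential time has
bounded error polynomial-time algorithms, and some language with such algorithms is not in `NP`. -/
theorem exists_close_BPP {g : ℕ → ℝ}
    (hg : ¬ ∀ ε : ℝ, 0 < ε → ∃ᶠ n : ℕ in atTop, g n ≤ 2 ^ (n : ℝ) ^ ε) (O : Oracle) :
    ∃ A, Close g O A ∧ (∀ L, IsNEXP A L → IsBPP A L) ∧ ∃ L, IsBPP A L ∧ ¬ IsNP A L := by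
  push Not at hg
  obtain ⟨ε, hε, hg⟩ := hg
  have hcount := CC.poly_countable
  obtain ⟨al, hal⟩ := exists_alg
  obtain ⟨pl, hpl⟩ := exists_surjective_nat (Polynomial ℕ)
  have h2 : Countable Alg := inferInstance
  obtain ⟨u, hu⟩ := exists_surjective_nat (Option (Alg × Polynomial ℕ))
  set M : ℕ → Alg := fun k => al (Nat.unpair k).1 with hMd
  set p : ℕ → Polynomial ℕ := fun k => pl (Nat.unpair k).2 with hpd
  obtain ⟨n, hn, hn2⟩ := Filter.extraction_forall_of_eventually
    (P := fun j m => ((M j).p.comp (cl (p j))).eval m ≤ 2 ^ m)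
    (fun j => H529R3.Lev.poly_le_two_pow _)
  choose rd hrd using QN_local (al := M) (pl := p) hn2
  obtain ⟨K, hK'⟩ := exists_K hε
  set R : ℕ → Polynomial ℕ := fun e => (Polynomial.X + Polynomial.C (e + 1)) ^ K with hR
  have hRe : ∀ e n, (n + e + 1) ^ K ≤ (R e).eval n := by
    intro e n
    rw [hR]
    simp only [Polynomial.eval_pow, Polynomial.eval_add, Polynomial.eval_X, Polynomial.eval_C]
    rw [add_assoc]
  obtain ⟨Φ, hΦ⟩ := exists_stageN R (fun e => rd (u e)) (fun e x A => QN M p n (u e) x A)
    (fun e x A => hrd (u e) x A)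
  refine ⟨Φ O, close_of_code hε hg hK' hRe (hΦ O).1, ?_, ?_⟩
  · rintro L ⟨V, q, ⟨M', hM'⟩, hV⟩
    obtain ⟨e, he⟩ := hu (some (M', q))
    have h4 := isBPP_of_code R (fun e => rd (u e)) (Φ O) e
      {x | QN M p n (u e) x (Φ O)} (fun x => (hΦ O).2 e x)
    have h5 : L = {x | QN M p n (u e) x (Φ O)} := by
      ext x
      rw [hV x, he]
      simp only [Set.mem_ofPred_eq, QN, hM', Option.some.injEq]
    rw [h5]
    exact h4
  · obtain ⟨e, he⟩ := hu none
    have h4 := isBPP_of_code R (fun e => rd (u e)) (Φ O) e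
      {x | QN M p n (u e) x (Φ O)} (fun x => (hΦ O).2 e x)
    rw [he] at h4
    refine ⟨_, isBPP_compl h4, ?_⟩
    rintro ⟨V, q, ⟨M', hM'⟩, hV⟩
    obtain ⟨i, hi⟩ := hal M'
    obtain ⟨j, hj⟩ := hpl q
    have hMk : M (Nat.pair i j) = M' := by rw [hMd]; simp [hi]
    have hpk : p (Nat.pair i j) = q := by rw [hpd]; simp [hj]
    set k := Nat.pair i j with hk
    have h6 : QN M p n none (List.replicate (n k) true) (Φ O) ↔ ∃ w : List Bool,
        w.length ≤ q.eval (n k) ∧ V (pairBits w (List.replicate (n k) true)) = [true] := by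
      constructor
      · rintro ⟨k', h7, w, hw, h8⟩
        have h9 : n k = n k' := by
          have := congrArg List.length h7
          simpa using this
        have h10 := hn.injective h9
        rw [← h10, hpk] at hw
        rw [← h10, hMk, hM', Option.some.injEq] at h8
        exact ⟨w, hw, h8⟩
      · rintro ⟨w, hw, h8⟩
        refine ⟨k, rfl, w, by rw [hpk]; exact hw, ?_⟩
        rw [hMk, hM', h8]
    have h7 := hV (List.replicate (n k) true)
    rw [List.length_replicate] at h7
    rw [← h6] at h7
    have h8 : List.replicate (n k) true ∈ {x | QN M p n none x (Φ O)}ᶜ ↔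
        ¬ QN M p n none (List.replicate (n k) true) (Φ O) := Iff.rfl
    rw [h8] at h7
    tauto

end Pool.Agent.W900.RB
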