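import Pool.Agent.W900.RB.ZFin

/-!
# Superpolynomially many changes allow to separate `RP` and `coNP`: one stage
-/

set_option autoImplicit false

namespace Pool.Agent.W900.RB

open Filter MeasureTheory
open Pool.Agent.NPC Pool.Agent.H622R2
open Pool.Agent.H620R2.Gauge
open Pool.Agent.H628R3.RO (randomOracle)
open Pool.Agent.W900.CH (Close)

/-- `2 p + n + 1`: the length of an input with a certificate -/
noncomputable def cl (p : Polynomial ℕ) : Polynomial ℕ :=
  Polynomial.C 2 * p + Polynomial.C 1 + Polynomial.X

theorem eval_cl (p : Polynomial ℕ) (n : ℕ) : (cl p).eval n = 2 * p.eval n + 1 + n := by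
  simp [cl]

theorem len_pairBits (x w : List Bool) :
    (pairBits x w).length = 2 * x.length + 1 + w.length := by
  unfold pairBits
  rw [List.length_append, List.length_flatMap, List.length_cons]
  simp
  ring

theorem len_cert {p : Polynomial ℕ} {n : ℕ} {w x : List Bool} (hw : w.length ≤ p.eval n)
    (hx : x.length = n) : (pairBits w x).length ≤ (cl p).eval n := by
  rw [len_pairBits, eval_cl, hx]
  omega

/-- `w` is a good string of the block -/
def Both (A : Oracle) (n : ℕ) (w : List Bool) : Prop :=
  A (ps n false w) = true ∧ A (ps n true w) = true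

/-- The task: the region `n` codes one bit, with one-sided error algorithms, on which the
nondeterministic algorithm is right, where it should be wrong. -/
def WR (M : Alg) (p : Polynomial ℕ) (n : ℕ) (A : Oracle) : Prop :=
  ∃ (r : ℕ) (b : Bool), r < n ∧ Marked A n ∧ rr A n = r ∧
    (b = false → ∀ w : List Bool, w.length = r → ¬ Both A n w) ∧
    (b = true → 2 * Nat.card {w : Fin r → Bool // ¬ Both A n (List.ofFn w)} ≤ 2 ^ r) ∧
    (b = true ↔ ∃ w : List Bool, w.length ≤ p.eval n ∧
      M.out A (pairBits w (List.replicate n true)) = some [true])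

theorem both_congr {A A' : Oracle} {n r : ℕ}
    (h : ∀ (c : Bool) (w : List Bool), w.length = r → A (ps n c w) = A' (ps n c w))
    (w : List Bool) (hw : w.length = r) : Both A n w ↔ Both A' n w := by
  unfold Both
  rw [h _ w hw, h _ w hw]

open Classical in
theorem taskR (M : Alg) (p : Polynomial ℕ) : ∀ᶠ n : ℕ in atTop, ∀ B : Oracle, ∃ B' : Oracle,
    (∀ y ∉ Region n, B' y = B y) ∧ {y | B y ≠ B' y}.Finite ∧
    {y | B y ≠ B' y}.ncard ≤ (Polynomial.C 2 * Polynomial.X + Polynomial.C 8 * M.p.comp (cl p) +
      Polynomial.C 4).eval n ∧
    ∀ B'' : Oracle, (∀ y : List Bool, y.length ≤ ((SP.out_local M).choose.comp (cl p) +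
      Polynomial.C 3 * Polynomial.X + Polynomial.C 3).eval n → B'' y = B' y) →
        WR M p n B'' := by
  filter_upwards [bs_lt_n (M.p.comp (cl p))] with n hn B
  set P := (M.p.comp (cl p)).eval n with hP
  have hPe : P = M.p.eval ((cl p).eval n) := by rw [hP, Polynomial.eval_comp]
  set r := bs P with hr
  set x := List.replicate n true with hx
  have hxl : x.length = n := by simp [hx]
  have hev : ((SP.out_local M).choose.comp (cl p) + Polynomial.C 3 * Polynomial.X +
      Polynomial.C 3).eval n = (SP.out_local M).choose.eval ((cl p).eval n) + 3 * n + 3 := by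
    simp
  have hcost : ∀ f, {y | B y ≠ setR B n r f y}.ncard ≤
      (Polynomial.C 2 * Polynomial.X + Polynomial.C 8 * M.p.comp (cl p) +
        Polynomial.C 4).eval n := by
    intro f
    refine (setR_card B n r f).trans ?_
    have h1 := bs_le P
    have h2 : (Polynomial.C 2 * Polynomial.X + Polynomial.C 8 * M.p.comp (cl p) +
        Polynomial.C 4).eval n = 2 * n + 8 * P + 4 := by simp [hP]
    rw [h2]
    rw [← hr] at h1
    omega
  have hloc : ∀ (f : Bool → List Bool → Bool) (B'' : Oracle), (∀ y : List Bool, y.length ≤
      ((SP.out_local M).choose.comp (cl p) + Polynomial.C 3 * Polynomial.X +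
        Polynomial.C 3).eval n → B'' y = setR B n r f y) →
      Marked B'' n ∧ rr B'' n = r ∧
      (∀ (c : Bool) (w : List Bool), w.length = r → B'' (ps n c w) = f c w) ∧
      ∀ w : List Bool, w.length ≤ p.eval n →
        M.out B'' (pairBits w x) = M.out (setR B n r f) (pairBits w x) := by
    intro f B'' hB''
    rw [hev] at hB''
    obtain ⟨h1, h2⟩ := reg_congr (A := B'') (A' := setR B n r f) hn.le
      (fun y hy => hB'' y (by omega))
    refine ⟨(marked_congr h1).2 (marked_setR B n r f), (rr_congr h1).trans (rr_setR B f hn.le),
      fun c w hw => by rw [h2 c w hw, setR_ps B f c hw], fun w hw => ?_⟩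
    apply (SP.out_local M).choose_spec
    intro y hy
    have h3 := eval_mono (SP.out_local M).choose (len_cert hw hxl)
    exact hB'' y (by omega)
  set f0 : Bool → List Bool → Bool := fun _ _ => false with hf0
  by_cases hacc : ∃ w : List Bool, w.length ≤ p.eval n ∧
      M.out (setR B n r f0) (pairBits w x) = some [true]
  · obtain ⟨w0, hw0, hw0'⟩ := hacc
    obtain ⟨U, hU, hrun⟩ := run_local M (setR B n r f0) (pairBits w0 x)
      (M.p.eval (pairBits w0 x).length) []
    have hUP : U.card ≤ P := by
      rw [hPe]
      exact hU.trans (eval_mono _ (len_cert hw0 hxl))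
    set good : List Bool → Prop := fun w => ps n false w ∉ U ∧ ps n true w ∉ U with hgood
    set f : Bool → List Bool → Bool := fun _ w => decide (good w) with hf
    have hUeq : ∀ u ∈ U, setR B n r f u = setR B n r f0 u := by
      intro u hu
      by_cases h : u ∈ Region n
      · obtain ⟨z, rfl⟩ := h
        change setR B n r f (reg n z) = setR B n r f0 (reg n z)
        rw [setR_reg, setR_reg]
        rcases z with _ | ⟨_ | _, z⟩
        · rfl
        · rfl
        · rcases z with _ | ⟨c, w⟩
          · rfl
          · rw [cont_true, cont_true]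
            by_cases h1 : w.length = r
            · rw [if_pos h1, if_pos h1]
              have hng : ¬ good w := by
                rw [hgood]
                rintro ⟨h2, h3⟩
                cases c
                · exact h2 hu
                · exact h3 hu
              rw [hf, hf0]
              simp [hng]
            · rw [if_neg h1, if_neg h1]
      · rw [setR_off _ _ _ _ _ h, setR_off _ _ _ _ _ h]
    have hout : M.out (setR B n r f) (pairBits w0 x) = some [true] :=
      (hrun _ hUeq).trans hw0'
    refine ⟨setR B n r f, fun y hy => setR_off B n r f y hy, setR_finite B n r f, hcost f, ?_⟩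
    intro B'' hB''
    obtain ⟨h1, h2, h3, h4⟩ := hloc f B'' hB''
    refine ⟨r, true, hn, h1, h2, fun h => absurd h (by simp), fun _ => ?_, ?_⟩
    · have h5 : Nat.card {w : Fin r → Bool // ¬ Both B'' n (List.ofFn w)} ≤ U.card := by
        rw [Nat.card_eq_fintype_card, Fintype.card_subtype]
        refine Finset.card_le_card_of_injOn (fun w : Fin r → Bool =>
          if ps n false (List.ofFn w) ∈ U then ps n false (List.ofFn w)
          else ps n true (List.ofFn w)) ?_ ?_
        · intro w hw
          rw [Finset.mem_coe, Finset.mem_filter] at hw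
          have h5 := hw.2
          unfold Both at h5
          rw [h3 _ _ (by simp), h3 _ _ (by simp), hf] at h5
          simp only [decide_eq_true_eq, and_self] at h5
          dsimp only
          split_ifs with h6
          · exact h6
          · by_contra h7
            exact h5 ⟨h6, h7⟩
        · intro w _ w' _ h
          dsimp only at h
          have h6 : List.ofFn w = List.ofFn w' := by
            split_ifs at h
            · exact (ps_inj h).2
            · exact (ps_inj h).2
            · exact (ps_inj h).2
            · exact (ps_inj h).2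
          exact List.ofFn_injective h6
      have h6 := lt_bs P
      rw [← hr] at h6
      omega
    · refine ⟨fun _ => ⟨w0, hw0, ?_⟩, fun _ => rfl⟩
      rw [h4 w0 hw0]
      exact hout
  · refine ⟨setR B n r f0, fun y hy => setR_off B n r f0 y hy, setR_finite B n r f0, hcost f0, ?_⟩
    intro B'' hB''
    obtain ⟨h1, h2, h3, h4⟩ := hloc f0 B'' hB''
    refine ⟨r, false, hn, h1, h2, fun _ w hw => ?_, fun h => absurd h (by simp), ?_⟩
    · rintro ⟨h5, _⟩
      rw [h3 _ _ hw, hf0] at h5
      simp at h5
    · refine ⟨fun h => absurd h (by simp), ?_⟩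
      rintro ⟨w, hw, h5⟩
      rw [h4 w hw] at h5
      exact absurd ⟨w, hw, h5⟩ hacc

end Pool.Agent.W900.RB
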