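import Pool.Agent.W900.RB.Prob
import Pool.Agent.H529R3.Lev.Tow

/-!
# Random samples from an oracle, when few strings of the oracle are changed
-/

set_option autoImplicit false

namespace Pool.Agent.W900.RB

open MeasureTheory Finset
open Pool.Agent.H628R3.RO (randomOracle)
open Pool.Agent.H620R2.Gauge (Oracle)
open Pool.Agent.W900.CH
open Pool.Agent.W900.BC (dig length_dig dig_inj)

theorem smp_inj {q n p t : ℕ} (h : t * p ≤ 2 ^ n) {i i' j j' : ℕ} (hi : i < t) (hi' : i' < t)
    (hj : j < p) (hj' : j' < p) (he : smp q n (i * p + j) = smp q n (i' * p + j')) :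
    i = i' ∧ j = j' := by
  have hnum : ∀ i j : ℕ, i < t → j < p → i * p + j < 2 ^ n := by
    intro i j h1 h2
    have h3 : (i + 1) * p ≤ t * p := Nat.mul_le_mul_right _ h1
    rw [Nat.add_mul, one_mul] at h3
    omega
  unfold smp at he
  have h2 := List.append_cancel_left he
  have h3 := dig_inj (hnum i j hi hj) (hnum i' j' hi' hj') h2
  have hp0 : 0 < p := lt_of_le_of_lt (Nat.zero_le _) hj
  have h4 : i = i' := by
    have e1 : (i * p + j) / p = i := by
      rw [mul_comm, Nat.mul_add_div hp0, Nat.div_eq_of_lt hj, add_zero]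
    have e2 : (i' * p + j') / p = i' := by
      rw [mul_comm, Nat.mul_add_div hp0, Nat.div_eq_of_lt hj', add_zero]
    rw [← e1, ← e2, h3]
  subst h4
  exact ⟨rfl, by omega⟩

open Classical in
/-- few samples are changed -/
theorem changed_le (O A : Oracle) {q n p t : ℕ} (h : t * p ≤ 2 ^ n) :
    (univ.filter fun i : Fin t => sample A q n p i ≠ sample O q n p i).card ≤
      CH.dist O A (q + 1 + n) := by
  have h1 : ∀ i : Fin t, sample A q n p i ≠ sample O q n p i →
      ∃ j : Fin p, A (smp q n (i * p + j)) ≠ O (smp q n (i * p + j)) := by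
    intro i hi
    by_contra hc
    push Not at hc
    apply hi
    unfold sample
    congr 1
    funext j
    exact hc j
  unfold CH.dist
  rw [← Set.ncard_coe_finset]
  refine Set.ncard_le_ncard_of_injOn (fun i : Fin t => if hi : sample A q n p i ≠ sample O q n p i
    then smp q n (i * p + (h1 i hi).choose) else []) ?_ ?_ (finite_diff O A _)
  · intro i hi
    rw [mem_coe, mem_filter] at hi
    simp only [dif_pos hi.2]
    exact ⟨(length_smp _ _ _).le, (h1 i hi.2).choose_spec⟩
  · intro i hi i' hi' he
    rw [mem_coe, mem_filter] at hi hi'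
    simp only [dif_pos hi.2, dif_pos hi'.2] at he
    exact Fin.ext (smp_inj h i.2 i'.2 (h1 i hi.2).choose.2 (h1 i' hi'.2).choose.2 he).1

/-- The oracle `A` is obtained from `O` by polynomially many changes: for all large `n` they differ
on at most `n ^ c` strings of length at most `n`. -/
def PClose (c : ℕ) (O A : Oracle) : Prop :=
  ∀ᶠ n : ℕ in Filter.atTop, CH.dist O A n ≤ n ^ c

/-- a quarter of the number of samples -/
noncomputable def tau (q : Polynomial ℕ) (c : ℕ) : Polynomial ℕ :=
  (q + Polynomial.X + Polynomial.C 2) ^ (c + 1)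

theorem eval_tau (q : Polynomial ℕ) (c n : ℕ) :
    (tau q c).eval n = (q.eval n + n + 2) ^ (c + 1) := by
  unfold tau
  simp only [Polynomial.eval_pow, Polynomial.eval_add, Polynomial.eval_X, Polynomial.eval_C]

theorem tau_ge (q : Polynomial ℕ) (c n : ℕ) :
    n + 1 + (q.eval n + 1) * q.eval n ^ c + n ≤ 4 * (tau q c).eval n ∧
    (q.eval n + 1 + n) ^ c < (tau q c).eval n := by
  rw [eval_tau]
  set Q := q.eval n + n + 2 with hQ
  have h1 : (q.eval n + 1) * q.eval n ^ c ≤ Q * Q ^ c := by
    apply Nat.mul_le_mul (by omega)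
    exact Nat.pow_le_pow_left (by omega) _
  have h2 : Q ≤ Q * Q ^ c := Nat.le_mul_of_pos_right _ (by positivity)
  have h3 : Q ^ (c + 1) = Q * Q ^ c := by ring
  constructor
  · rw [h3]
    omega
  · rw [h3]
    calc (q.eval n + 1 + n) ^ c ≤ Q ^ c := Nat.pow_le_pow_left (by omega) _
      _ < Q * Q ^ c := by
        have : 0 < Q ^ c := by positivity
        nlinarith [show 2 ≤ Q by omega]

open Classical in
/-- For almost every oracle `O`: however polynomially many strings are changed, the majority of the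
samples is right. -/
theorem ae_samples (Acc : Oracle → List Bool → List Bool → Prop) (q p : Polynomial ℕ) (c : ℕ)
    (hq : ∀ n, n ≤ q.eval n)
    (hloc : ∀ (n : ℕ) (A A' : Oracle) (r x : List Bool), x.length = n → r.length = p.eval n →
      (∀ y : List Bool, y.length ≤ q.eval n → A y = A' y) → (Acc A r x ↔ Acc A' r x)) :
    ∀ᵐ O ∂randomOracle, ∀ A : Oracle, PClose c O A → ∀ᶠ n : ℕ in Filter.atTop,
      4 * (tau q c).eval n * p.eval n ≤ 2 ^ n ∧
      ∀ x : List Bool, x.length = n → ∀ b : Prop,
        256 * Nat.card {r : Fin (p.eval n) → Bool // ¬ (Acc A (List.ofFn r) x ↔ b)} ≤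
          2 ^ p.eval n →
        (univ.filter fun i : Fin (4 * (tau q c).eval n) =>
          ¬ (Acc A (sample A (q.eval n) n (p.eval n) i) x ↔ b)).card < 2 * (tau q c).eval n := by
  obtain ⟨n₀, hn₀⟩ := Filter.eventually_atTop.1
    (H529R3.Lev.poly_le_two_pow (Polynomial.C 4 * tau q c * p))
  have hn₀' : ∀ n ≥ n₀, 4 * (tau q c).eval n * p.eval n ≤ 2 ^ n := by
    intro n hn
    have := hn₀ n hn
    simpa using this
  set s : ℕ → Set Oracle := fun n => if n₀ ≤ n then
    BadR Acc n (q.eval n) (p.eval n) (q.eval n ^ c) ((tau q c).eval n) else ∅ with hs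
  have hms : ∀ n, randomOracle (s n) ≤ (2⁻¹ : ENNReal) ^ n := by
    intro n
    rw [hs]
    dsimp only
    split_ifs with h
    · refine (badR_le (hloc n) (hn₀' n h)).trans ?_
      have h1 := (tau_ge q c n).1
      have h2 : (2 : ℝ) ^ (n + 1 + (q.eval n + 1) * q.eval n ^ c) / 2 ^ (4 * (tau q c).eval n) ≤
          (1 / 2) ^ n := by
        rw [div_le_iff₀ (by positivity)]
        have h3 : (1 / 2 : ℝ) ^ n * 2 ^ (4 * (tau q c).eval n) =
            2 ^ (4 * (tau q c).eval n - n) := by
          rw [pow_sub₀ _ (by norm_num) (by omega), one_div, inv_pow]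
          ring
        rw [h3]
        exact pow_le_pow_right₀ (by norm_num) (by omega)
      refine (ENNReal.ofReal_le_ofReal h2).trans (le_of_eq ?_)
      rw [ENNReal.ofReal_pow (by norm_num)]
      congr 1
      rw [one_div, ENNReal.ofReal_inv_of_pos (by norm_num)]
      simp
    · simp
  have hsum : ∑' n, randomOracle (s n) ≠ ⊤ := by
    refine ne_top_of_le_ne_top ?_ (ENNReal.tsum_le_tsum hms)
    rw [ENNReal.tsum_geometric]
    simp
  filter_upwards [ae_eventually_notMem hsum] with O hO A hA
  obtain ⟨n₁, hn₁⟩ := Filter.eventually_atTop.1 hA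
  filter_upwards [hO, Filter.eventually_ge_atTop n₀, Filter.eventually_ge_atTop n₁] with n h1 h2 h3
  refine ⟨hn₀' n h2, fun x hx b hb => ?_⟩
  rw [hs] at h1
  simp only [if_pos h2] at h1
  by_contra hcon
  rw [not_lt] at hcon
  apply h1
  refine ⟨x, A, b, hx, hn₁ _ (h3.trans (hq n)), hb, ?_⟩
  have h4 := changed_le O A (q := q.eval n) (hn₀' n h2)
  have h5 : CH.dist O A (q.eval n + 1 + n) < (tau q c).eval n :=
    lt_of_le_of_lt (hn₁ _ (by omega)) (tau_ge q c n).2
  have h6 : (univ.filter fun i : Fin (4 * (tau q c).eval n) =>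
      ¬ (Acc A (sample A (q.eval n) n (p.eval n) i) x ↔ b)) ⊆
      (univ.filter fun i : Fin (4 * (tau q c).eval n) =>
        ¬ (Acc A (sample O (q.eval n) n (p.eval n) i) x ↔ b)) ∪
      (univ.filter fun i : Fin (4 * (tau q c).eval n) =>
        sample A (q.eval n) n (p.eval n) i ≠ sample O (q.eval n) n (p.eval n) i) := by
    intro i hi
    rw [mem_filter] at hi
    rw [mem_union, mem_filter, mem_filter]
    by_cases h : sample A (q.eval n) n (p.eval n) i = sample O (q.eval n) n (p.eval n) i
    · left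
      rw [← h]
      exact hi
    · exact Or.inr ⟨mem_univ _, h⟩
  have h7 := (card_le_card h6).trans (card_union_le _ _)
  omega

end Pool.Agent.W900.RB
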