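import Pool.Agent.W900.RB.Reg
import Pool.Agent.W900.SP.Sim
import Pool.Agent.H620R2.GaugeX.X1
import Pool.Agent.H620R2.GaugeX.NonNullX
import Pool.Agent.H529R3.Lev.Tow

/-!
# Superpolynomially many changes allow to separate `P` and `ZPP`
-/

set_option autoImplicit false

namespace Pool.Agent.W900.RB

open Filter MeasureTheory
open Pool.Agent.NPC Pool.Agent.H622R2
open Pool.Agent.H620R2.Gauge
open Pool.Agent.H628R3.RO (randomOracle)
open Pool.Agent.W900.CH (Close)

/-- the strings of the regions do not depend on long strings -/
theorem reg_congr {A A' : Oracle} {n r : ℕ} (hr : r ≤ n)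
    (h : ∀ y : List Bool, y.length ≤ 3 * n + 3 → A y = A' y) :
    (∀ j < 2 * n, A (mk n j) = A' (mk n j)) ∧
    ∀ (c : Bool) (w : List Bool), w.length = r → A (ps n c w) = A' (ps n c w) := by
  constructor
  · intro j hj
    apply h
    unfold mk
    rw [length_reg]
    simp
    omega
  · intro c w hw
    apply h
    unfold ps
    rw [length_reg]
    simp
    omega

theorem marked_congr {A A' : Oracle} {n : ℕ} (h : ∀ j < 2 * n, A (mk n j) = A' (mk n j)) :
    Marked A n ↔ Marked A' n := by
  unfold Marked
  exact forall₂_congr fun j hj => by rw [h j (by omega)]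

theorem rr_congr {A A' : Oracle} {n : ℕ} (h : ∀ j < 2 * n, A (mk n j) = A' (mk n j)) :
    rr A n = rr A' n := by
  unfold rr
  congr 2
  apply List.map_congr_left
  intro j hj
  rw [List.mem_range] at hj
  exact h _ (by omega)

/-- the size of the block for an algorithm with at most `P` questions -/
def bs (P : ℕ) : ℕ := Nat.log 2 (2 * P + 1) + 1

theorem lt_bs (P : ℕ) : 2 * P + 1 < 2 ^ bs P := Nat.lt_pow_succ_log_self (by norm_num) _

theorem bs_le (P : ℕ) : 2 ^ bs P ≤ 4 * P + 2 := by
  unfold bs
  rw [pow_succ]
  have := Nat.pow_log_le_self 2 (show 2 * P + 1 ≠ 0 by omega)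
  omega

theorem bs_lt_n (p : Polynomial ℕ) : ∀ᶠ n : ℕ in atTop, bs (p.eval n) < n := by
  filter_upwards [H529R3.Lev.poly_le_two_pow (Polynomial.C 4 * p + Polynomial.C 3)] with n hn
  have h1 : (Polynomial.C 4 * p + Polynomial.C 3).eval n = 4 * p.eval n + 3 := by simp
  rw [h1] at hn
  have h2 := bs_le (p.eval n)
  by_contra h
  push Not at h
  have h3 : 2 ^ n ≤ 2 ^ bs (p.eval n) := Nat.pow_le_pow_right (by norm_num) h
  omega

/-- The task: the region `n` codes one bit, with zero error algorithms, on which the algorithm is
wrong. -/
def WZ (M : Alg) (n : ℕ) (A : Oracle) : Prop :=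
  ∃ (r : ℕ) (b : Bool), r < n ∧ Marked A n ∧ rr A n = r ∧
    (∀ w : List Bool, w.length = r → A (ps n false w) = true → A (ps n true w) = b) ∧
    2 * Nat.card {w : Fin r → Bool // A (ps n false (List.ofFn w)) = false} ≤ 2 ^ r ∧
    (b = true ↔ M.out A (List.replicate n true) ≠ some [true])

open Classical in
theorem taskZ (M : Alg) : ∀ᶠ n : ℕ in atTop, ∀ B : Oracle, ∃ B' : Oracle,
    (∀ y ∉ Region n, B' y = B y) ∧ {y | B y ≠ B' y}.Finite ∧
    {y | B y ≠ B' y}.ncard ≤ (Polynomial.C 2 * Polynomial.X + Polynomial.C 8 * M.p +
      Polynomial.C 4).eval n ∧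
    ∀ B'' : Oracle, (∀ y : List Bool, y.length ≤ ((SP.out_local M).choose + Polynomial.C 3 *
      Polynomial.X + Polynomial.C 3).eval n → B'' y = B' y) → WZ M n B'' := by
  filter_upwards [bs_lt_n M.p] with n hn B
  set r := bs (M.p.eval n) with hr
  set x := List.replicate n true with hx
  have hxl : x.length = n := by simp [hx]
  set B0 : Oracle := setR B n r (fun c w => if c = true then B (ps n true w) else false) with hB0
  obtain ⟨U, hU, hrun⟩ := run_local M B0 x (M.p.eval x.length) []
  rw [hxl] at hU
  set good : List Bool → Prop := fun w => ps n false w ∉ U ∧ ps n true w ∉ U with hgood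
  set b : Bool := decide (M.out B0 x ≠ some [true]) with hb
  set f : Bool → List Bool → Bool := fun c w =>
    if c = true then (if good w then b else B (ps n true w)) else decide (good w) with hf
  have hUeq : ∀ u ∈ U, setR B n r f u = B0 u := by
    intro u hu
    by_cases h : u ∈ Region n
    · obtain ⟨z, rfl⟩ := h
      change setR B n r f (reg n z) = B0 (reg n z)
      rw [hB0, setR_reg, setR_reg]
      rcases z with _ | ⟨_ | _, z⟩
      · rfl
      · rfl
      · rcases z with _ | ⟨c, w⟩
        · rfl
        · rw [cont_true, cont_true]
          by_cases h1 : w.length = r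
          · rw [if_pos h1, if_pos h1]
            have hng : ¬ good w := by
              rw [hgood]
              rintro ⟨h2, h3⟩
              cases c
              · exact h2 hu
              · exact h3 hu
            rw [hf]
            dsimp only
            cases c
            · simp [hng]
            · simp [hng]
          · rw [if_neg h1, if_neg h1]
    · rw [setR_off _ _ _ _ _ h, hB0, setR_off _ _ _ _ _ h]
  have hout : M.out (setR B n r f) x = M.out B0 x := hrun _ hUeq
  refine ⟨setR B n r f, fun y hy => setR_off B n r f y hy, setR_finite B n r f, ?_, ?_⟩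
  · refine (setR_card B n r f).trans ?_
    have h1 := bs_le (M.p.eval n)
    simp only [Polynomial.eval_add, Polynomial.eval_mul, Polynomial.eval_C, Polynomial.eval_X]
    rw [← hr] at h1
    omega
  · intro B'' hB''
    have hev : ((SP.out_local M).choose + Polynomial.C 3 * Polynomial.X + Polynomial.C 3).eval n =
        (SP.out_local M).choose.eval n + 3 * n + 3 := by simp
    rw [hev] at hB''
    obtain ⟨h1, h2⟩ := reg_congr (A := B'') (A' := setR B n r f) hn.le
      (fun y hy => hB'' y (by omega))
    have h3 : M.out B'' x = M.out (setR B n r f) x := by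
      apply (SP.out_local M).choose_spec
      intro y hy
      rw [hxl] at hy
      exact hB'' y (by omega)
    refine ⟨r, b, hn, (marked_congr h1).2 (marked_setR B n r f),
      (rr_congr h1).trans (rr_setR B f hn.le), ?_, ?_, ?_⟩
    · intro w hw h4
      rw [h2 _ w hw, setR_ps B f _ hw] at h4 ⊢
      rw [hf] at h4 ⊢
      simp only [Bool.false_eq_true, if_false, decide_eq_true_eq] at h4
      simp only [if_true, if_pos h4]
    · have h4 : Nat.card {w : Fin r → Bool // B'' (ps n false (List.ofFn w)) = false} ≤ U.card := by
        rw [Nat.card_eq_fintype_card, Fintype.card_subtype]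
        refine Finset.card_le_card_of_injOn (fun w : Fin r → Bool =>
          if ps n false (List.ofFn w) ∈ U then ps n false (List.ofFn w)
          else ps n true (List.ofFn w)) ?_ ?_
        · intro w hw
          rw [Finset.mem_coe, Finset.mem_filter] at hw
          have h5 := hw.2
          rw [h2 _ _ (by simp), setR_ps B f _ (by simp), hf] at h5
          simp only [Bool.false_eq_true, if_false, decide_eq_false_iff_not] at h5
          dsimp only
          split_ifs with h6
          · exact h6
          · by_contra h7
            exact h5 ⟨h6, h7⟩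
        · intro w _ w' _ h
          dsimp only at h
          have h6 : List.ofFn w = List.ofFn w' := by
            split_ifs at h
            · exact (ps_inj h).2
            · exact (ps_inj h).2
            · exact (ps_inj h).2
            · exact (ps_inj h).2
          exact List.ofFn_injective h6
      have h5 := lt_bs (M.p.eval n)
      rw [← hr] at h5
      omega
    · rw [h3, hout, hb, decide_eq_true_eq]

end Pool.Agent.W900.RB
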