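import Pool.Agent.W900.RB.ZDiag
import Pool.Agent.W900.BC.Neg4
import Pool.Agent.H620R2.GaugeR.R1

/-!
# Superpolynomially many changes allow to separate `P` and `ZPP`: the language
-/

set_option autoImplicit false

namespace Pool.Agent.W900.RB

open Filter MeasureTheory
open Pool.Agent.NPC Pool.Agent.H622R2
open Pool.Agent.H620R2.Gauge
open Pool.Agent.H628R3.RO (randomOracle)
open Pool.Agent.W900.CH (Close)
open Pool.Agent.W900.SP (poly_u1 poly_u2)

open Classical in
/-- conditions on a prefix -/
theorem card_prefix (P : List Bool → Prop) {r m : ℕ} (h : r ≤ m) :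
    Nat.card {w : Fin m → Bool // P ((List.ofFn w).take r)} =
      Nat.card {u : Fin r → Bool // P (List.ofFn u)} * 2 ^ (m - r) := by
  obtain ⟨s, rfl⟩ := Nat.exists_eq_add_of_le h
  have e1 : {w : Fin (r + s) → Bool // P ((List.ofFn w).take r)} ≃
      {u : Fin r → Bool // P (List.ofFn u)} × (Fin s → Bool) := by
    refine (Equiv.subtypeEquiv (Fin.appendEquiv r s).symm
      (q := fun p : (Fin r → Bool) × (Fin s → Bool) => P (List.ofFn p.1)) ?_).trans ?_
    · intro w
      obtain ⟨p, rfl⟩ := (Fin.appendEquiv r s).surjective w
      rw [Equiv.symm_apply_apply]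
      have h1 : List.ofFn ((Fin.appendEquiv r s) p) = List.ofFn p.1 ++ List.ofFn p.2 := by
        show List.ofFn (Fin.append p.1 p.2) = _
        exact List.ofFn_fin_append _ _
      rw [h1, List.take_left' (by simp)]
    · exact {
        toFun := fun q => (⟨q.1.1, q.2⟩, q.1.2)
        invFun := fun q => ⟨(q.1.1, q.2), q.1.2⟩
        left_inv := fun q => rfl
        right_inv := fun q => rfl }
  rw [Nat.card_congr e1, Nat.card_prod]
  congr 1
  rw [Nat.card_eq_fintype_card, Fintype.card_fun, Fintype.card_bool, Fintype.card_fin]
  congr 1
  omega

/-- the questions of the zero error algorithm -/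
def Qz (z : List Bool) : List (List Bool) :=
  (List.range (2 * (unpair z).2.length)).map (fun j => mk (unpair z).2.length j) ++
    ((List.range (unpair z).2.length).map (fun r => ps (unpair z).2.length false
      ((unpair z).1.take r)) ++
    (List.range (unpair z).2.length).map (fun r => ps (unpair z).2.length true
      ((unpair z).1.take r)))

theorem poly_rep {α : Type} [TEnc α] {n : α → ℕ} (hn : UPoly n) :
    Poly (fun a => List.replicate (n a) true) := by
  have h1 := hn.range
  have h2 : Poly (fun a => (List.range (n a)).map (fun _ => true)) :=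
    NPC.Poly.map (F := fun (_ : α) (_ : ℕ) => true) h1 (NPC.Poly.const true)
  refine h2.congr fun a => ?_
  rw [List.map_const', List.length_range]

theorem poly_Qz : Poly Qz := by
  have hx : Poly (fun z : List Bool => (unpair z).2) := poly_u2 Poly.id
  have hn : UPoly (fun z : List Bool => (unpair z).2.length) := UPoly.length hx
  have hn2 : UPoly (fun y : List Bool × ℕ => (unpair y.1).2.length) :=
    UPoly.length (poly_u2 (Poly.fst Poly.id))
  have hreg : ∀ {f : List Bool × ℕ → List Bool}, Poly f →
      Poly (fun y : List Bool × ℕ => reg (unpair y.1).2.length (f y)) := by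
    intro f hf
    unfold reg
    exact Poly.append (poly_rep hn2) (Poly.cons (NPC.Poly.const false) hf)
  have hw : Poly (fun y : List Bool × ℕ =>
      (unpair y.1).1.take (min y.2 (unpair y.1).2.length)) := by
    have h1 : UPoly (fun y : List Bool × ℕ => min y.2 (unpair y.1).2.length) :=
      UPoly.of_le (Poly.min (Poly.snd Poly.id) hn2.toPoly) hn2 (fun y => min_le_right _ _)
    exact R1.poly_take (poly_u1 (Poly.fst Poly.id)) h1
  have hps : ∀ c : Bool, Poly (fun z : List Bool => (List.range (unpair z).2.length).map
      (fun r => ps (unpair z).2.length c ((unpair z).1.take r))) := by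
    intro c
    have h1 : Poly (fun z : List Bool => (List.range (unpair z).2.length).map
        (fun r => ps (unpair z).2.length c ((unpair z).1.take (min r (unpair z).2.length)))) := by
      refine NPC.Poly.map (F := fun (z : List Bool) r => ps (unpair z).2.length c
        ((unpair z).1.take (min r (unpair z).2.length))) hn.range ?_
      unfold ps
      exact hreg (Poly.cons (NPC.Poly.const true) (Poly.cons (NPC.Poly.const c) hw))
    refine h1.congr fun z => ?_
    apply List.map_congr_left
    intro r hr
    rw [List.mem_range] at hr
    rw [min_eq_left hr.le]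
  unfold Qz
  refine Poly.append ?_ (Poly.append (hps false) (hps true))
  have h2 : UPoly (fun y : List Bool × ℕ => 2 * (unpair y.1).2.length) := by
    have h3 := hn2.eval (Polynomial.C 2 * Polynomial.X)
    simpa using h3
  have h4 : UPoly (fun y : List Bool × ℕ => min y.2 (2 * (unpair y.1).2.length)) :=
    UPoly.of_le (Poly.min (Poly.snd Poly.id) h2.toPoly) h2 (fun y => min_le_right _ _)
  have h5 : Poly (fun z : List Bool => (List.range (2 * (unpair z).2.length)).map
      (fun j => mk (unpair z).2.length (min j (2 * (unpair z).2.length)))) := by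
    refine NPC.Poly.map (F := fun (z : List Bool) j => mk (unpair z).2.length
      (min j (2 * (unpair z).2.length))) ?_ ?_
    · have h1 := (hn.eval (Polynomial.C 2 * Polynomial.X)).range
      refine h1.congr fun z => ?_
      simp
    · unfold mk
      exact hreg (Poly.cons (NPC.Poly.const false) (poly_rep h4))
  refine h5.congr fun z => ?_
  apply List.map_congr_left
  intro r hr
  rw [List.mem_range] at hr
  rw [min_eq_left hr.le]

/-- the answers -/
theorem Qz_getD (A : Oracle) (w x : List Bool) (j : ℕ) :
    (j < 2 * x.length → ((Qz (pairBits w x)).map A).getD j false = A (mk x.length j)) ∧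
    (j < x.length → ((Qz (pairBits w x)).map A).getD (2 * x.length + j) false =
      A (ps x.length false (w.take j))) ∧
    (j < x.length → ((Qz (pairBits w x)).map A).getD (3 * x.length + j) false =
      A (ps x.length true (w.take j))) := by
  unfold Qz
  simp only [unpair_pairBits, List.map_append, List.map_map]
  refine ⟨fun h => ?_, fun h => ?_, fun h => ?_⟩
  · rw [List.getD_append _ _ _ _ (by simpa using h)]
    rw [List.getD_eq_getElem _ _ (by simpa using h)]
    simp
  · rw [List.getD_append_right _ _ _ _ (by simp)]
    rw [List.getD_append _ _ _ _ (by simpa using h)]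
    rw [List.getD_eq_getElem _ _ (by simpa using h)]
    simp
  · rw [List.getD_append_right _ _ _ _ (by simp; omega)]
    rw [List.getD_append_right _ _ _ _ (by simp; omega)]
    have h1 : 3 * x.length + j - (List.map (A ∘ fun j => mk x.length j)
        (List.range (2 * x.length))).length - (List.map (A ∘ fun r => ps x.length false
          (List.take r w)) (List.range x.length)).length = j := by
      simp
      omega
    rw [h1, List.getD_eq_getElem _ _ (by simpa using h)]
    simp

/-- the number coded by the answers -/
def ra (m : ℕ) (a : List Bool) : ℕ :=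
  (((List.range m).map (fun j => a.getD (m + j) false)).filter (fun b => b)).length

/-- the decision -/
def Hz (N₀ : ℕ) (y : List Bool × List Bool) : List Bool :=
  if (unpair y.1).2.length < N₀ then [false]
  else if (unpair y.1).2.all (fun b => b) = true then
    (if (List.range (unpair y.1).2.length).all (fun j => y.2.getD j false) = true then
      (if y.2.getD (2 * (unpair y.1).2.length + ra (unpair y.1).2.length y.2) false = true then
        (if y.2.getD (3 * (unpair y.1).2.length + ra (unpair y.1).2.length y.2) false = true then
          [true] else [false]) else [])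
    else [false])
  else [false]

theorem poly_Hz (N₀ : ℕ) : Poly (Hz N₀) := by
  have hx : Poly (fun y : List Bool × List Bool => (unpair y.1).2) := poly_u2 (Poly.fst Poly.id)
  have hn : UPoly (fun y : List Bool × List Bool => (unpair y.1).2.length) := UPoly.length hx
  have ha : Poly (fun y : List Bool × List Bool => y.2) := Poly.snd Poly.id
  have hra : Poly (fun y : List Bool × List Bool => ra (unpair y.1).2.length y.2) := by
    unfold ra
    refine Poly.length (Poly.filter (p := fun (_ : List Bool × List Bool) (b : Bool) => b) ?_
      (Poly.snd Poly.id))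
    refine NPC.Poly.map (F := fun (y : List Bool × List Bool) j =>
      y.2.getD ((unpair y.1).2.length + j) false) hn.range ?_
    exact Poly.getD (Poly.snd (Poly.fst Poly.id)) (Poly.add (Poly.length
      (poly_u2 (Poly.fst (Poly.fst Poly.id)))) (Poly.snd Poly.id)) (NPC.Poly.const false)
  unfold Hz
  refine Poly.ite (Poly.decide_lt hn.toPoly (NPC.Poly.const _)) (NPC.Poly.const _) ?_
  refine Poly.ite (Poly.decide_bool (Poly.all (p := fun (_ : List Bool × List Bool) b => b) hx
    (Poly.snd Poly.id))) ?_ (NPC.Poly.const _)
  refine Poly.ite (Poly.decide_bool (Poly.all (p := fun (y : List Bool × List Bool) j =>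
    y.2.getD j false) hn.range (Poly.getD (Poly.snd (Poly.fst Poly.id)) (Poly.snd Poly.id)
      (NPC.Poly.const false)))) ?_ (NPC.Poly.const _)
  refine Poly.ite (Poly.decide_bool (Poly.getD ha (Poly.add (Poly.mul (NPC.Poly.const 2)
    hn.toPoly) hra) (NPC.Poly.const false))) ?_ (NPC.Poly.const _)
  exact Poly.ite (Poly.decide_bool (Poly.getD ha (Poly.add (Poly.mul (NPC.Poly.const 3)
    hn.toPoly) hra) (NPC.Poly.const false))) (NPC.Poly.const _) (NPC.Poly.const _)

/-- the zero error algorithm -/
def Vz (A : Oracle) (N₀ : ℕ) (z : List Bool) : List Bool := Hz N₀ (z, (Qz z).map A)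

theorem Vz_fp (A : Oracle) (N₀ : ℕ) : IsFP A (Vz A N₀) := IsFP.tt poly_Qz (poly_Hz N₀)

theorem ra_eq (A : Oracle) (w x : List Bool) :
    ra x.length ((Qz (pairBits w x)).map A) = rr A x.length := by
  unfold ra rr
  congr 2
  apply List.map_congr_left
  intro j hj
  rw [List.mem_range] at hj
  exact (Qz_getD A w x (x.length + j)).1 (by omega)

theorem Vz_out (A : Oracle) (N₀ : ℕ) (w x : List Bool) :
    (x.length < N₀ → Vz A N₀ (pairBits w x) = [false]) ∧
    (x ≠ List.replicate x.length true → Vz A N₀ (pairBits w x) = [false]) ∧
    (¬ Marked A x.length → Vz A N₀ (pairBits w x) = [false]) ∧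
    (N₀ ≤ x.length → x = List.replicate x.length true → Marked A x.length →
      rr A x.length < x.length → Vz A N₀ (pairBits w x) =
        if A (ps x.length false (w.take (rr A x.length))) = true then
          (if A (ps x.length true (w.take (rr A x.length))) = true then [true] else [false])
        else []) := by
  have hall : x.all (fun b => b) = true ↔ x = List.replicate x.length true := by
    rw [List.all_eq_true, List.eq_replicate_iff]
    exact ⟨fun h => ⟨rfl, h⟩, fun h => h.2⟩
  have hm : (List.range x.length).all (fun j => ((Qz (pairBits w x)).map A).getD j false) = true ↔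
      Marked A x.length := by
    rw [List.all_eq_true]
    unfold Marked
    constructor
    · intro h j hj
      rw [← (Qz_getD A w x j).1 (by omega)]
      exact h j (List.mem_range.2 hj)
    · intro h j hj
      rw [List.mem_range] at hj
      rw [(Qz_getD A w x j).1 (by omega)]
      exact h j hj
  unfold Vz Hz
  simp only [unpair_pairBits]
  refine ⟨fun h => ?_, fun h => ?_, fun h => ?_, fun h1 h2 h3 h4 => ?_⟩
  · rw [if_pos h]
  · split_ifs with h1 h2
    · rfl
    · exact absurd (hall.1 h2) h
    · exact absurd (hall.1 h2) h
    · exact absurd (hall.1 h2) h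
    · exact absurd (hall.1 h2) h
    · rfl
  · split_ifs with h1 h2 h3
    · rfl
    · exact absurd (hm.1 h3) h
    · exact absurd (hm.1 h3) h
    · exact absurd (hm.1 h3) h
    · rfl
    · rfl
  · rw [if_neg (by omega), if_pos (hall.2 h2), if_pos (hm.2 h3), ra_eq,
      (Qz_getD A w x _).2.1 h4, (Qz_getD A w x _).2.2 h4]

end Pool.Agent.W900.RB
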